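import Pool.Agent.H.MP_0c96e5_nt.helper74.Rob1

/-!
# The linear sieve for all primes up to `x ^ θ`: parameters and iteration
-/

set_option autoImplicit false

open Finset MeasureTheory intervalIntegral

namespace Pool.LinSieve

open Pool.Agent.H.MP_3e6494_nt (prm mem_prm)
open Pool.MP42e49e
open Pool.MP42e49e.R (floor_bounds FF_nonneg exp_neg_le_inv)

/-- the parameters -/
structure Lk (θ u ε η β δ L l : ℝ) (R N x y W Wt P0 : ℕ) : Prop where
  hθ : 0 < θ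
  hθ1 : θ < 1
  hu1 : 1 < u
  hu2 : u + 2 * η ≤ 2
  hε : 0 < ε
  hη0 : 0 < η
  hη1 : η ≤ 1 / 2
  hβ0 : 0 < β
  hβθ : 4 * β ≤ θ
  hβη : (4 * R + 28) * β ≤ η
  hδ0 : 0 < δ
  hδ : δ ≤ ε * β ^ 3
  hR : 115 ≤ R
  hR2 : 60 ≤ δ * 42 ^ R
  hN : 1 ≤ N
  hN1 : 64 / (N : ℝ) ≤ β
  hN2 : 48 / Lf 4 / N ≤ ε * β ^ 5
  hx : 1 ≤ x
  hL : L = Real.log x
  hl : l = Real.log L
  hl1 : 1000 ≤ l
  hl2 : 2 ≤ δ * l
  hlq : 300 * l ≤ β * L
  hL1 : 4 / L ≤ (θ - 2 * β) / N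
  hL3 : 48 / (β * L) ≤ ((θ - 2 * β) / N) ^ 2
  hL6 : 4 / L ≤ β
  hW : W = ⌊Real.exp (β * L)⌋₊
  hWt : Wt = ⌊Real.exp (θ * L)⌋₊
  hP : P0 = ⌊Real.exp ((u + η) * L)⌋₊
  hy : Real.exp ((u + 2 * η) * L) ≤ y

variable {θ u ε η β δ L l : ℝ} {R N x y W Wt P0 : ℕ} {a : ℕ → ℤ}

theorem Lk.L_pos (h : Lk θ u ε η β δ L l R N x y W Wt P0) : 0 < L := by
  by_contra h1
  have h2 : β * L ≤ 0 := mul_nonpos_of_nonneg_of_nonpos h.hβ0.le (not_lt.1 h1)
  linarith [h.hlq, h.hl1]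

theorem Lk.exp_l (h : Lk θ u ε η β δ L l R N x y W Wt P0) : Real.exp l = L := by
  rw [h.hl, Real.exp_log h.L_pos]

theorem Lk.l_le (h : Lk θ u ε η β δ L l R N x y W Wt P0) : l + 1 ≤ L := by
  have := Real.add_one_le_exp l
  rwa [h.exp_l] at this

theorem Lk.x_eq (h : Lk θ u ε η β δ L l R N x y W Wt P0) : (x : ℝ) = Real.exp L := by
  have h5 : (1 : ℝ) ≤ x := by exact_mod_cast h.hx
  rw [h.hL, Real.exp_log (by linarith)]

theorem Lk.β_le (h : Lk θ u ε η β δ L l R N x y W Wt P0) : 488 * β ≤ 1 / 2 := by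
  have h1 := h.hβη
  have h2 : (115 : ℝ) ≤ R := by exact_mod_cast h.hR
  have h3 := h.hη1
  have h4 := h.hβ0
  have h5 : 488 * β ≤ (4 * R + 28) * β := mul_le_mul_of_nonneg_right (by linarith) h4.le
  linarith

theorem Lk.W_facts (h : Lk θ u ε η β δ L l R N x y W Wt P0) :
    (W : ℝ) ≤ Real.exp (β * L) ∧ Real.exp (β * L) ≤ 2 * W ∧ β * L - 1 ≤ Real.log W ∧
    Real.log W ≤ β * L ∧ 2 ≤ W := by
  have h3 := floor_bounds (t := β * L) (by linarith [h.hlq, h.hl1])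
  rw [← h.hW] at h3
  exact h3

theorem Lk.θL (h : Lk θ u ε η β δ L l R N x y W Wt P0) : 4 * (β * L) ≤ θ * L := by
  have := mul_le_mul_of_nonneg_right h.hβθ h.L_pos.le
  linarith

theorem Lk.Wt_facts (h : Lk θ u ε η β δ L l R N x y W Wt P0) :
    (Wt : ℝ) ≤ Real.exp (θ * L) ∧ Real.exp (θ * L) ≤ 2 * Wt ∧ θ * L - 1 ≤ Real.log Wt ∧
    Real.log Wt ≤ θ * L ∧ 2 ≤ Wt := by
  have h3 := floor_bounds (t := θ * L) (by linarith [h.θL, h.hlq, h.hl1])
  rw [← h.hWt] at h3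
  exact h3

theorem Lk.P_facts (h : Lk θ u ε η β δ L l R N x y W Wt P0) :
    (P0 : ℝ) ≤ Real.exp ((u + η) * L) ∧ Real.exp ((u + η) * L) ≤ 2 * P0 ∧
    (u + η) * L - 1 ≤ Real.log P0 ∧ Real.log P0 ≤ (u + η) * L ∧ 2 ≤ P0 := by
  have h5 : L ≤ (u + η) * L := by
    have := mul_le_mul_of_nonneg_right (show 1 ≤ u + η by linarith [h.hη0, h.hu1]) h.L_pos.le
    linarith
  have h3 := floor_bounds (t := (u + η) * L) (by linarith [h.l_le, h.hl1])
  rw [← h.hP] at h3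
  exact h3

theorem Lk.W2_le (h : Lk θ u ε η β δ L l R N x y W Wt P0) :
    ((W ^ 2 : ℕ) : ℝ) ≤ Real.exp (2 * (β * L)) := by
  rw [Nat.cast_pow, show (2 : ℝ) * (β * L) = (2 : ℕ) * (β * L) by norm_num, Real.exp_nat_mul]
  exact pow_le_pow_left₀ (Nat.cast_nonneg _) h.W_facts.1 2

theorem Lk.Wt_le_x (h : Lk θ u ε η β δ L l R N x y W Wt P0) : Wt ≤ x := by
  have h1 := h.Wt_facts.1
  have h2 : θ * L ≤ 1 * L := mul_le_mul_of_nonneg_right h.hθ1.le h.L_pos.le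
  rw [one_mul] at h2
  have h3 := h.x_eq
  have h4 : (Wt : ℝ) ≤ x := by
    rw [h3]
    exact h1.trans (Real.exp_le_exp.2 h2)
  exact_mod_cast h4

theorem Lk.Py (h : Lk θ u ε η β δ L l R N x y W Wt P0) :
    (P0 : ℝ) * Real.exp ((4 * R + 28) * (β * L)) ≤ y := by
  have h1 := h.P_facts.1
  have h2 := mul_le_mul_of_nonneg_right h.hβη h.L_pos.le
  calc (P0 : ℝ) * Real.exp ((4 * R + 28) * (β * L))
      ≤ Real.exp ((u + η) * L) * Real.exp ((4 * R + 28) * (β * L)) :=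
        mul_le_mul_of_nonneg_right h1 (Real.exp_pos _).le
    _ = Real.exp ((u + η) * L + (4 * R + 28) * (β * L)) := by rw [Real.exp_add]
    _ ≤ Real.exp ((u + 2 * η) * L) := Real.exp_le_exp.2 (by linarith)
    _ ≤ y := h.hy

theorem Lk.y_pos (h : Lk θ u ε η β δ L l R N x y W Wt P0) : (0 : ℝ) < y :=
  (Real.exp_pos _).trans_le h.hy

/-- the small primes -/
theorem Lk.S1 (h : Lk θ u ε η β δ L l R N x y W Wt P0) (b : ℕ → ℕ) (d c : ℕ) (hd : 0 < d)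
    (hdP : d ≤ P0) (hdc : ∀ q ∈ lS W, Nat.Coprime d q) :
    |((sv b (lS W) (cls y d c)).card : ℝ) - (y : ℝ) / d * PP (lS W)| ≤
      δ * ((y : ℝ) / d * PP (lS W)) := by
  have hW := h.W_facts
  refine fund (L := L) (l := l) (q := β * L) (R := R) (P0 := P0) h.hl1 h.exp_l h.hlq
    ?_ hW.1 hW.2.1 h.hδ0 h.hl2 h.hR h.hR2 h.Py b c hd hdP hdc
  have := mul_le_mul_of_nonneg_right (show β ≤ 1 by linarith [h.β_le, h.hβ0]) h.L_pos.le
  linarith

theorem Lk.dist (h : Lk θ u ε η β δ L l R N x y W Wt P0) (a : ℕ → ℤ) :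
    Dist a δ (Sf a (Icc 1 y) (prm (W ^ 2))) (y * PP (lS W)) P0 (pw (W ^ 2) x) :=
  dist_small h.hδ0.le a h.S1

/-- thresholds -/
noncomputable def wk (W : ℕ) (θ β L : ℝ) (N i : ℕ) : ℕ :=
  if i = 0 then W ^ 2 else ⌊Real.exp ((2 * β + i * ((θ - 2 * β) / N)) * L)⌋₊

theorem Lk.N_pos (h : Lk θ u ε η β δ L l R N x y W Wt P0) : (0 : ℝ) < N := by
  exact_mod_cast (show 0 < N by have := h.hN; omega)

theorem Lk.h1_pos (h : Lk θ u ε η β δ L l R N x y W Wt P0) : 0 < (θ - 2 * β) / N ∧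
    (θ - 2 * β) / N ≤ 1 / N := by
  have hN := h.N_pos
  have h1 := h.hβθ
  have h2 := h.hβ0
  have h3 := h.hθ1
  refine ⟨div_pos (by linarith) hN, div_le_div_of_nonneg_right (by linarith) hN.le⟩

theorem Lk.lw (h : Lk θ u ε η β δ L l R N x y W Wt P0) (i : ℕ) :
    2 * β + i * ((θ - 2 * β) / N) - 2 / L ≤ Real.log (wk W θ β L N i) / L ∧
    Real.log (wk W θ β L N i) / L ≤ 2 * β + i * ((θ - 2 * β) / N) ∧ 2 ≤ wk W θ β L N i := by
  have hL := h.L_pos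
  have hW := h.W_facts
  unfold wk
  rcases Nat.eq_zero_or_pos i with rfl | hi
  · rw [if_pos rfl, Nat.cast_zero, zero_mul, add_zero, Nat.cast_pow, Real.log_pow]
    push_cast
    refine ⟨?_, ?_, ?_⟩
    · rw [le_div_iff₀ hL, sub_mul, div_mul_cancel₀ _ hL.ne']
      linarith
    · rw [div_le_iff₀ hL]
      linarith
    · have := hW.2.2.2.2
      nlinarith
  · rw [if_neg (by omega)]
    obtain ⟨t, ht⟩ : ∃ t, t = (2 * β + i * ((θ - 2 * β) / N)) * L := ⟨_, rfl⟩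
    have h1 : 0 ≤ (i : ℝ) * ((θ - 2 * β) / N) := mul_nonneg (Nat.cast_nonneg _) h.h1_pos.1.le
    have ht1 : 1 ≤ t := by
      have h2 : β * L ≤ t := by
        rw [ht]
        exact mul_le_mul_of_nonneg_right (by linarith [h.hβ0]) hL.le
      linarith [h.hlq, h.hl1]
    have h3 := floor_bounds ht1
    rw [← ht]
    have h4 : 2 * β + i * ((θ - 2 * β) / N) = t / L := by
      rw [ht]
      field_simp
    rw [h4]
    refine ⟨?_, div_le_div_of_nonneg_right h3.2.2.2.1 hL.le, h3.2.2.2.2⟩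
    rw [← sub_div]
    exact div_le_div_of_nonneg_right (by linarith [h3.2.2.1]) hL.le

theorem wk_zero : wk W θ β L N 0 = W ^ 2 := by
  unfold wk
  rw [if_pos rfl]

theorem Lk.wk_N (h : Lk θ u ε η β δ L l R N x y W Wt P0) : wk W θ β L N N = Wt := by
  unfold wk
  rw [if_neg (by have := h.hN; omega)]
  have h1 : (2 * β + N * ((θ - 2 * β) / N)) * L = θ * L := by
    have := h.N_pos
    field_simp
    ring
  rw [h1, ← h.hWt]

theorem Lk.z0 (h : Lk θ u ε η β δ L l R N x y W Wt P0) :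
    3 / 2 * β ≤ Real.log ((W ^ 2 : ℕ) : ℝ) / L ∧ Real.log ((W ^ 2 : ℕ) : ℝ) / L ≤ 1 / 4 := by
  have h1 := h.lw 0
  rw [wk_zero, Nat.cast_zero, zero_mul, add_zero] at h1
  have h2 := h.hL6
  have h3 := h.β_le
  have h4 : 2 / L = 4 / L / 2 := by ring
  constructor
  · linarith [h1.1]
  · linarith [h1.2.1]

theorem Lk.A_bounds (h : Lk θ u ε η β δ L l R N x y W Wt P0) :
    3 / 2 * β ≤ AA W L ∧ AA W L ≤ 1 / 4 / Lf 4 := by
  obtain ⟨h1, h2⟩ := h.z0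
  have hβ := h.hβ0
  unfold AA
  obtain ⟨z, hz⟩ : ∃ z, z = Real.log ((W ^ 2 : ℕ) : ℝ) / L := ⟨_, rfl⟩
  rw [← hz] at h1 h2 ⊢
  have hz0 : 0 < z := by linarith
  have h3 : 4 ≤ 2 / z := by
    rw [le_div_iff₀ hz0]
    linarith
  have h4 : LF (2 / z) ≤ 1 := LF_le_one (by linarith)
  have h5 : Lf 4 ≤ LF (2 / z) := (Lf_mono (by norm_num) h3).trans (Lf_lt (by linarith)).le
  have h6 : 0 < LF (2 / z) := LF_pos (by linarith)
  constructor
  · rw [le_div_iff₀ h6]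
    calc 3 / 2 * β * LF (2 / z) ≤ 3 / 2 * β * 1 := mul_le_mul_of_nonneg_left h4 (by positivity)
      _ ≤ z := by linarith
  · exact div_le_div₀ (by norm_num) h2 Lf4_pos h5

theorem Lk.zθ (h : Lk θ u ε η β δ L l R N x y W Wt P0) :
    θ / 2 ≤ Real.log Wt / L ∧ Real.log Wt / L ≤ θ ∧ θ - 1 / L ≤ Real.log Wt / L := by
  have hW := h.Wt_facts
  have hL := h.L_pos
  have h6 := h.hL6
  have h7 := h.hβθ
  refine ⟨?_, ?_, ?_⟩
  · rw [le_div_iff₀ hL]
    rw [div_le_iff₀ hL] at h6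
    have := mul_le_mul_of_nonneg_right h7 hL.le
    linarith [hW.2.2.1]
  · rw [div_le_iff₀ hL]
    exact hW.2.2.2.1
  · rw [le_div_iff₀ hL, sub_mul, div_mul_cancel₀ _ hL.ne']
    linarith [hW.2.2.1]

theorem Lk.stage (h : Lk θ u ε η β δ L l R N x y W Wt P0) :
    Stage (wk W θ β L N) N L (AA W L) (ε * β) ((θ - 2 * β) / N) ∅ := by
  have hL := h.L_pos
  have hN := h.N_pos
  obtain ⟨hh, hh1⟩ := h.h1_pos
  obtain ⟨hz1, hz2⟩ := h.z0
  obtain ⟨hA1, hA2⟩ := h.A_bounds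
  have hβ := h.hβ0
  have hf4 := Lf4_pos
  have hA0 : 0 ≤ AA W L := by linarith
  have hL1 := h.hL1
  have h2L : 2 / L = 4 / L / 2 := by ring
  have hε := h.hε
  have hκ : 0 ≤ ε * β := by positivity
  refine ⟨hL, hA0, hκ, hh, (h.lw 0).2.2, ?_, ?_, ?_, ?_, ?_, ?_, ?_, ?_⟩
  · intro i hi
    unfold wk
    rw [if_neg (show i + 1 ≠ 0 by omega)]
    rcases Nat.eq_zero_or_pos i with rfl | hi0
    · rw [if_pos rfl]
      apply Nat.le_floor
      refine h.W2_le.trans (Real.exp_le_exp.2 ?_)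
      rw [← mul_assoc]
      apply mul_le_mul_of_nonneg_right _ hL.le
      push_cast
      linarith
    · rw [if_neg (by omega)]
      apply Nat.floor_mono
      apply Real.exp_le_exp.2
      apply mul_le_mul_of_nonneg_right _ hL.le
      push_cast
      linarith
  · intro i hi
    refine (h.lw i).2.1.trans ?_
    have h1 : (i : ℝ) * ((θ - 2 * β) / N) ≤ N * ((θ - 2 * β) / N) := by
      apply mul_le_mul_of_nonneg_right _ hh.le
      exact_mod_cast hi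
    have h2 : (N : ℝ) * ((θ - 2 * β) / N) = θ - 2 * β := by field_simp
    linarith [h.hθ1]
  · intro i hi
    have h1 := (h.lw i).2.1
    have h2 := (h.lw (i + 1)).1
    push_cast at h2
    linarith
  · intro i hi
    have h1 := (h.lw i).1
    have h2 := (h.lw (i + 1)).2.1
    push_cast at h2
    linarith
  · rw [wk_zero]
    have h1 := h.hN1
    have h2 : 64 / (N : ℝ) = 64 * (1 / N) := by ring
    linarith
  · rw [wk_zero]
    have h1 : 48 * AA W L * ((θ - 2 * β) / N) ≤ 48 * (1 / 4 / Lf 4) * (1 / N) := by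
      apply mul_le_mul _ hh1 hh.le (by positivity)
      exact mul_le_mul_of_nonneg_left hA2 (by norm_num)
    have h2 : 48 * (1 / 4 / Lf 4) * (1 / (N : ℝ)) = 48 / Lf 4 / N / 4 := by
      field_simp
    have h3 : ε * β ^ 5 ≤ ε * β * (Real.log ((W ^ 2 : ℕ) : ℝ) / L) ^ 4 := by
      have e1 : ε * β ^ 5 = ε * β * β ^ 4 := by ring
      rw [e1]
      apply mul_le_mul_of_nonneg_left _ hκ
      exact pow_le_pow_left₀ hβ.le (by linarith) 4
    have h4 : 0 ≤ 48 / Lf 4 / (N : ℝ) := by positivity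
    linarith [h.hN2]
  · rw [wk_zero]
    have h1 : β * L ≤ Real.log ((W ^ 2 : ℕ) : ℝ) := by
      rw [le_div_iff₀ hL] at hz1
      have : 0 ≤ β * L := by positivity
      linarith
    have h2 : 12 / Real.log ((W ^ 2 : ℕ) : ℝ) ≤ 12 / (β * L) :=
      div_le_div_of_nonneg_left (by norm_num) (by positivity) h1
    have h3 := h.hL3
    have h4 : 48 / (β * L) = 4 * (12 / (β * L)) := by ring
    linarith
  · intro q hq
    exact absurd hq (notMem_empty q)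

/-- the upper and lower bounds for the sifting by all primes in `(W ^ 2, x ^ θ]` -/
theorem Lk.sieve (h : Lk θ u ε η β δ L l R N x y W Wt P0) (a : ℕ → ℤ) :
    Up a δ L (AA W L) (ε * β) (Real.log Wt / L) (pw (W ^ 2) Wt) ∧
    Lo a δ L (AA W L) (ε * β) (Real.log Wt / L) (pw (W ^ 2) Wt) := by
  have hL := h.L_pos
  obtain ⟨hz1, hz2⟩ := h.z0
  have hβ := h.hβ0
  have hε := h.hε
  have hz0p : 0 < Real.log ((W ^ 2 : ℕ) : ℝ) / L := by linarith
  obtain ⟨b1, b2⟩ := base (a := a) (δ := δ) (L := L) (A := AA W L)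
    (z := Real.log ((W ^ 2 : ℕ) : ℝ) / L)
    (e := ε * β * (Real.log ((W ^ 2 : ℕ) : ℝ) / L) ^ 2) hL hz0p rfl (by
      have h1 : ε * β ^ 3 ≤ ε * β * (Real.log ((W ^ 2 : ℕ) : ℝ) / L) ^ 2 := by
        have e1 : ε * β ^ 3 = ε * β * β ^ 2 := by ring
        rw [e1]
        apply mul_le_mul_of_nonneg_left _ (by positivity)
        exact pow_le_pow_left₀ hβ.le (by linarith) 2
      linarith [h.hδ])
  rw [← wk_zero (θ := θ) (β := β) (L := L) (N := N)] at b1 b2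
  obtain ⟨c1, c2⟩ := h.stage.iter b1 b2 N le_rfl
  have hQ : Qi (wk W θ β L N) ∅ N = pw (W ^ 2) Wt := by
    unfold Qi
    rw [empty_union, wk_zero, h.wk_N]
  rw [hQ, h.wk_N] at c1 c2
  obtain ⟨t1, t2, t3⟩ := h.zθ
  have hsq : ε * β * (Real.log Wt / L) ^ 2 ≤ ε * β := by
    have h1 : (Real.log Wt / L) ^ 2 ≤ 1 :=
      pow_le_one₀ (by linarith [h.hθ]) (by linarith [h.hθ1])
    have h2 : 0 ≤ ε * β := by positivity
    nlinarith
  constructor
  · intro T X D hX hD hD2 hd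
    refine (c1 T X D hX hD hD2 hd).trans (mul_le_mul_of_nonneg_left ?_ hX)
    linarith
  · intro T X D hX hD hD2 hd
    refine le_trans (mul_le_mul_of_nonneg_left ?_ hX) (c2 T X D hX hD hD2 hd)
    linarith

end Pool.LinSieve
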