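import Pool.Agent.H.MP_0c96e5_nt.helper74.Kuh1

/-!
# Kuhn's weights
-/

set_option autoImplicit false

open Finset MeasureTheory intervalIntegral

namespace Pool.LinSieve

open Pool.Agent.H.MP_3e6494_nt (prm mem_prm)
open Pool.MP42e49e
open Pool.MP42e49e.R (floor_bounds FF_nonneg exp_neg_le_inv)

variable {θ u ε η β δ L l : ℝ} {R N x y W Wt P0 : ℕ} {a : ℕ → ℤ}

/-- the points of division of `[θ, 1]` -/
noncomputable def tj (θ : ℝ) (M j : ℕ) : ℝ := θ + j * ((1 - θ) / M)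

theorem tj_zero (θ : ℝ) (M : ℕ) : tj θ M 0 = θ := by
  unfold tj
  rw [Nat.cast_zero, zero_mul, add_zero]

theorem tj_last (θ : ℝ) {M : ℕ} (hM : 1 ≤ M) : tj θ M M = 1 := by
  unfold tj
  have : (M : ℝ) ≠ 0 := by
    have : (1 : ℝ) ≤ M := by exact_mod_cast hM
    linarith
  field_simp
  ring

theorem tj_mono {M : ℕ} (hθ1 : θ ≤ 1) {i j : ℕ} (h : i ≤ j) : tj θ M i ≤ tj θ M j := by
  unfold tj
  have h1 : (i : ℝ) ≤ j := by exact_mod_cast h
  have h2 : 0 ≤ (1 - θ) / M := div_nonneg (by linarith) (Nat.cast_nonneg M)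
  have := mul_le_mul_of_nonneg_right h1 h2
  linarith

theorem tj_ge {M : ℕ} (hθ1 : θ ≤ 1) (j : ℕ) : θ ≤ tj θ M j := by
  have := tj_mono (θ := θ) (M := M) hθ1 (Nat.zero_le j)
  rwa [tj_zero] at this

theorem tj_le {M : ℕ} (hM : 1 ≤ M) (hθ1 : θ ≤ 1) {j : ℕ} (h : j ≤ M) : tj θ M j ≤ 1 := by
  have := tj_mono (θ := θ) (M := M) hθ1 h
  rwa [tj_last θ hM] at this

/-- the upper sum -/
noncomputable def RS (θ u : ℝ) (M : ℕ) : ℝ :=
  ∑ j ∈ range M, Real.log (tj θ M (j + 1) / tj θ M j) * Gp (u - tj θ M (j + 1)) θ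

theorem w2_zero (θ L : ℝ) (M : ℕ) : w2 θ L M 0 = ⌊Real.exp (θ * L)⌋₊ := by
  unfold w2
  rw [Nat.cast_zero, zero_mul, add_zero]

theorem Lk.w2_facts (h : Lk θ u ε η β δ L l R N x y W Wt P0) (M j : ℕ) :
    tj θ M j - 1 / L ≤ Real.log (w2 θ L M j) / L ∧ Real.log (w2 θ L M j) / L ≤ tj θ M j ∧
      2 ≤ w2 θ L M j := by
  have hL := h.L_pos
  have h1 := tj_ge (θ := θ) (M := M) h.hθ1.le j
  have h2 : 1 ≤ tj θ M j * L := by
    have h3 := mul_le_mul_of_nonneg_right h1 hL.le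
    linarith [h.θL, h.hlq, h.hl1]
  have h3 := floor_bounds h2
  have e : w2 θ L M j = ⌊Real.exp (tj θ M j * L)⌋₊ := rfl
  rw [e]
  refine ⟨?_, ?_, h3.2.2.2.2⟩
  · rw [le_div_iff₀ hL, sub_mul, div_mul_cancel₀ _ hL.ne']
    linarith [h3.2.2.1]
  · rw [div_le_iff₀ hL]
    exact h3.2.2.2.1

theorem Lk.w2_mono (h : Lk θ u ε η β δ L l R N x y W Wt P0) (M : ℕ) {i j : ℕ} (hij : i ≤ j) :
    w2 θ L M i ≤ w2 θ L M j := by
  have e : ∀ k, w2 θ L M k = ⌊Real.exp (tj θ M k * L)⌋₊ := fun _ => rfl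
  rw [e, e]
  apply Nat.floor_mono
  apply Real.exp_le_exp.2
  exact mul_le_mul_of_nonneg_right (tj_mono h.hθ1.le hij) h.L_pos.le

theorem Lk.w2_last (h : Lk θ u ε η β δ L l R N x y W Wt P0) {M : ℕ} (hM : 1 ≤ M) :
    w2 θ L M M = x := by
  have e : w2 θ L M M = ⌊Real.exp (tj θ M M * L)⌋₊ := rfl
  rw [e, tj_last θ hM, one_mul, ← h.x_eq, Nat.floor_natCast]

theorem Lk.pw_sum (h : Lk θ u ε η β δ L l R N x y W Wt P0) (M : ℕ) (f : ℕ → ℝ) : ∀ i : ℕ,
    ∑ p ∈ pw Wt (w2 θ L M i), f p =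
      ∑ j ∈ range i, ∑ p ∈ pw (w2 θ L M j) (w2 θ L M (j + 1)), f p := by
  intro i
  induction i with
  | zero =>
    have e : w2 θ L M 0 = Wt := by rw [w2_zero, h.hWt]
    have : pw Wt Wt = ∅ := by
      ext p
      rw [mem_pw]
      simp only [notMem_empty, iff_false]
      omega
    rw [range_zero, sum_empty, e, this, sum_empty]
  | succ i ih =>
    rw [sum_range_succ, ← ih, ← sum_union]
    · congr 1
      have h1 := h.w2_mono M (Nat.le_succ i)
      have h2 := h.w2_mono M (Nat.zero_le i)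
      rw [w2_zero, ← h.hWt] at h2
      ext p
      rw [mem_union, mem_pw, mem_pw, mem_pw]
      constructor
      · rintro ⟨h3, h4, h5⟩
        rcases le_or_gt p (w2 θ L M i) with h6 | h6
        · exact Or.inl ⟨h3, h4, h6⟩
        · exact Or.inr ⟨h3, h6, h5⟩
      · rintro (⟨h3, h4, h5⟩ | ⟨h3, h4, h5⟩)
        · exact ⟨h3, h4, h5.trans h1⟩
        · exact ⟨h3, by omega, h5⟩
    · rw [disjoint_left]
      intro p h1 h2
      rw [mem_pw] at h1 h2
      omega

theorem Gp_scale {v z z' : ℝ} (hv : 0 < v) (hz : 0 < z) (hzz : z ≤ z') :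
    Gp v z ≤ z' / z * Gp v z' := by
  have hz' : 0 < z' := by linarith
  unfold Gp
  have e : z' / z * (LF (v / z') / z') = LF (v / z') / z := by
    field_simp
  rw [e]
  apply div_le_div_of_nonneg_right _ hz.le
  exact LF_anti (div_pos hv hz') (div_le_div_of_nonneg_left hv.le hz hzz)

theorem Gm_scale {v z z' : ℝ} (hv : 0 < v) (hz : 0 < z) (hzz : z ≤ z') : Gm v z' ≤ Gm v z := by
  have hz' : 0 < z' := by linarith
  unfold Gm
  have h1 : Lf (v / z') ≤ Lf (v / z) :=
    Lf_mono (div_pos hv hz') (div_le_div_of_nonneg_left hv.le hz hzz)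
  exact div_le_div₀ (Lf_nonneg (div_pos hv hz)) h1 hz hzz

/-- **Kuhn's weights**: some survivor of the sifting by the primes up to `x ^ θ` is in at most `r`
classes modulo primes in `(x ^ θ, x]`. -/
theorem Lk.count (h : Lk θ u ε η β δ L l R N x y W Wt P0) {M r : ℕ} (hM : 1 ≤ M) {c0 : ℝ}
    (hc0 : c0 ≤ (r + 1) * Gm u θ - RS θ u M) (hc : 0 < c0)
    (hε : ε * (r + 2 + Real.log (1 / θ)) ≤ c0 / 4)
    (h1 : 2 / (θ * L) * RS θ u M ≤ c0 / 8)
    (h2 : M * (26 / (θ * L)) * (2 * Gp (u - 1) θ) ≤ c0 / 8)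
    (h3 : M * (26 / (θ * L)) ≤ 1) (hLη : 1 / L ≤ η) (a : ℕ → ℤ) :
    ∃ n ∈ Icc 1 y, (∀ p : ℕ, p.Prime → p ≤ Wt → ¬ hit a p n) ∧
      ∃ s : Finset ℕ, s.card ≤ r ∧ ∀ p : ℕ, p.Prime → p ≤ x → hit a p n → p ∈ s := by
  classical
  have hL := h.L_pos
  have hθ := h.hθ
  have hθ1 := h.hθ1
  have hu1 := h.hu1
  have hβ := h.hβ0
  have hε0 := h.hε
  obtain ⟨A1, A2⟩ := h.A_bounds
  obtain ⟨t1, t2, t3⟩ := h.zθ
  obtain ⟨hU, hLo⟩ := h.sieve a
  have hd := h.dist a
  have hP := h.P_facts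
  obtain ⟨A, hA⟩ : ∃ A, A = AA W L := ⟨_, rfl⟩
  rw [← hA] at A1 A2 hU hLo
  have hA0 : 0 < A := by linarith
  obtain ⟨X, hX⟩ : ∃ X : ℝ, X = y * PP (lS W) := ⟨_, rfl⟩
  have hXX : 0 < X := by
    have h1 := h.y_pos
    have h2 := PPS_pos (W := W)
    rw [hX]
    positivity
  rw [← hX] at hd
  obtain ⟨z, hz⟩ : ∃ z, z = Real.log Wt / L := ⟨_, rfl⟩
  rw [← hz] at t1 t2 t3 hU hLo
  have hz0 : 0 < z := by linarith
  obtain ⟨v, hv⟩ : ∃ v, v = Real.log P0 / L := ⟨_, rfl⟩
  have hvu : u ≤ v := by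
    have h4 : u + η - 1 / L ≤ v := by
      rw [hv, le_div_iff₀ hL, sub_mul, div_mul_cancel₀ _ hL.ne']
      exact hP.2.2.1
    linarith
  have hv2 : v ≤ 2 := by
    have h4 : v ≤ u + η := by
      rw [hv, div_le_iff₀ hL]
      exact hP.2.2.2.1
    linarith [h.hu2, h.hη0]
  have hD2 : Real.log (P0 : ℝ) ≤ 2 * L := by
    rw [hv, div_le_iff₀ hL] at hv2
    exact hv2
  have hP2 : (2 : ℝ) ≤ P0 := by exact_mod_cast hP.2.2.2.2
  have hD1 : (1 : ℝ) < P0 := by linarith
  have hWx := h.Wt_le_x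
  obtain ⟨T, hT⟩ : ∃ T, T = Sf a (Icc 1 y) (prm (W ^ 2)) := ⟨_, rfl⟩
  obtain ⟨Q, hQ⟩ : ∃ Q, Q = pw (W ^ 2) Wt := ⟨_, rfl⟩
  rw [← hT] at hd
  rw [← hQ] at hU hLo
  have hW2t : W ^ 2 ≤ Wt := by
    have h5 := h.W2_le
    have h6 : ((W ^ 2 : ℕ) : ℝ) ≤ Real.exp (θ * L) :=
      h5.trans (Real.exp_le_exp.2 (by linarith [h.θL, h.hlq, h.hl1]))
    rw [h.hWt]
    exact Nat.le_floor h6
  have hQx : Q ⊆ pw (W ^ 2) x := by
    rw [hQ]
    intro p hp
    rw [mem_pw] at hp ⊢
    exact ⟨hp.1, hp.2.1, hp.2.2.trans hWx⟩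
  -- the lower bound
  have hlow := hLo T X P0 hXX.le hD1 hD2 (hd.sub hQx)
  rw [← hv] at hlow
  have hlow2 : X * (A * (Gm u θ - ε)) ≤ ((Sf a T Q).card : ℝ) := by
    refine le_trans (mul_le_mul_of_nonneg_left ?_ hXX.le) hlow
    have h4 : Gm u θ ≤ Gm v z :=
      (Gm_scale (by linarith) hz0 t2).trans (Gm_mono hz0 (by linarith) hvu)
    have h5 := mul_le_mul_of_nonneg_left h4 hA0.le
    have h6 : ε * β ≤ A * ε := by
      rw [mul_comm A]
      exact mul_le_mul_of_nonneg_left (by linarith) hε0.le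
    linarith
  -- the upper bound
  obtain ⟨κ1, hκ1⟩ : ∃ κ1, κ1 = 26 / (θ * L) := ⟨_, rfl⟩
  have hκ1p : 0 < κ1 := by rw [hκ1]; positivity
  rw [← hκ1] at h2 h3
  obtain ⟨κ2, hκ2⟩ : ∃ κ2, κ2 = 2 / (θ * L) := ⟨_, rfl⟩
  have hκ2p : 0 < κ2 := by rw [hκ2]; positivity
  rw [← hκ2] at h1
  have hκ12 : κ2 ≤ κ1 := by
    rw [hκ1, hκ2]
    exact div_le_div_of_nonneg_right (by norm_num) (by positivity)
  have hM1 : (1 : ℝ) ≤ M := by exact_mod_cast hM
  have hκ1' : κ1 ≤ 1 := by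
    have : 1 * κ1 ≤ M * κ1 := mul_le_mul_of_nonneg_right hM1 hκ1p.le
    linarith
  have hzθ : θ / z ≤ 1 + κ2 := by
    rw [div_le_iff₀ hz0]
    have h4 : 1 / L ≤ κ2 * z := by
      rw [hκ2, div_mul_eq_mul_div, div_le_div_iff₀ hL (by positivity)]
      nlinarith
    linarith
  have hGs : 0 ≤ Gp (u - 1) θ := Gp_nonneg hθ (by linarith)
  have hblock : ∀ j < M, ∑ p ∈ pw (w2 θ L M j) (w2 θ L M (j + 1)),
      ((Sf a (Tp a T p) Q).card : ℝ) ≤
      X * (A * ((Real.log (tj θ M (j + 1) / tj θ M j) + κ1) *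
        ((1 + κ2) * Gp (u - tj θ M (j + 1)) θ + ε))) := by
    intro j hj
    obtain ⟨f1, f2, f3⟩ := h.w2_facts M j
    obtain ⟨g1, g2, g3⟩ := h.w2_facts M (j + 1)
    have hmono := h.w2_mono M (Nat.le_succ j)
    have hWj : Wt ≤ w2 θ L M j := by
      have h5 := h.w2_mono M (Nat.zero_le j)
      rwa [w2_zero, ← h.hWt] at h5
    have htj := tj_ge (θ := θ) (M := M) hθ1.le j
    have htj1 : tj θ M (j + 1) ≤ 1 := tj_le hM hθ1.le (by omega)
    have hQj : ∀ q ∈ Q, q ≤ w2 θ L M j := by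
      intro q hq
      rw [hQ, mem_pw] at hq
      omega
    have hjx : w2 θ L M (j + 1) ≤ x := by
      have := h.w2_mono M (show j + 1 ≤ M by omega)
      rwa [h.w2_last hM] at this
    have H := bp_of (L := L) (Q := Q) hL f3 hmono hQj
    have hsum := sum_up (a := a) (δ := δ) (A := A) (z := z) (T := T) (X := X) (D := (P0 : ℝ)) H hz0
      hA0.le hU hXX.le hD1 hD2 (by
        apply hd.sub
        intro p hp
        rw [mem_union, mem_pw] at hp
        rcases hp with hp | hp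
        · exact hQx hp
        · rw [mem_pw]
          exact ⟨hp.1, by omega, hp.2.2.trans hjx⟩) (by
        rw [← hv]
        linarith)
    rw [← hv] at hsum
    refine hsum.trans (mul_le_mul_of_nonneg_left ?_ hXX.le)
    obtain ⟨B, hB⟩ : ∃ B, B = FF (w2 θ L M (j + 1)) - FF (w2 θ L M j) := ⟨_, rfl⟩
    rw [← hB]
    have hB0 : 0 ≤ B := by
      rw [hB, ← sum_pw hmono]
      exact sum_nonneg fun p _ => by positivity
    -- the bound for `B`
    have hBle : B ≤ Real.log (tj θ M (j + 1) / tj θ M j) + κ1 := by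
      have h5 := (window f3 hmono).1
      rw [← hB] at h5
      have hl1 : θ * L / 2 ≤ Real.log (w2 θ L M j) := by
        have h6 : θ / 2 ≤ Real.log (w2 θ L M j) / L := by
          have h7 : 1 / L ≤ θ / 2 := by
            have h8 := h.hL6
            have h9 := h.hβθ
            have h10 : 4 / L = 4 * (1 / L) := by ring
            linarith
          linarith
        rw [le_div_iff₀ hL] at h6
        linarith
      have hθL : 0 < θ * L := by positivity
      have hlj0 : 0 < Real.log (w2 θ L M j) := by linarith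
      have hlj1 : 0 < Real.log (w2 θ L M (j + 1)) := by
        have h6 : Real.log (w2 θ L M j) ≤ Real.log (w2 θ L M (j + 1)) := by
          apply Real.log_le_log
          · have : (2 : ℝ) ≤ w2 θ L M j := by exact_mod_cast f3
            linarith
          · exact_mod_cast hmono
        linarith
      have h6 : 12 / Real.log (w2 θ L M j) ≤ 24 / (θ * L) := by
        rw [div_le_div_iff₀ hlj0 hθL]
        linarith
      have h7 : Real.log (Real.log (w2 θ L M (j + 1))) - Real.log (Real.log (w2 θ L M j)) ≤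
          Real.log (tj θ M (j + 1) / tj θ M j) + κ2 := by
        have htj0 : 0 < tj θ M j := by linarith
        have htj10 : 0 < tj θ M (j + 1) := by
          have := tj_ge (θ := θ) (M := M) hθ1.le (j + 1)
          linarith
        have e1 : Real.log (Real.log (w2 θ L M (j + 1))) ≤ Real.log (tj θ M (j + 1) * L) := by
          apply Real.log_le_log hlj1
          rwa [div_le_iff₀ hL] at g2
        have e2 : Real.log (tj θ M j * L) - κ2 ≤ Real.log (Real.log (w2 θ L M j)) := by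
          have h8 : tj θ M j * L / Real.log (w2 θ L M j) ≤ 1 + κ2 := by
            rw [div_le_iff₀ hlj0]
            have h9 : tj θ M j * L - 1 ≤ Real.log (w2 θ L M j) := by
              rw [le_div_iff₀ hL, sub_mul, div_mul_cancel₀ _ hL.ne'] at f1
              exact f1
            have h10 : 1 ≤ κ2 * Real.log (w2 θ L M j) := by
              rw [hκ2, div_mul_eq_mul_div, one_le_div hθL]
              linarith
            linarith
          have h9 : Real.log (tj θ M j * L / Real.log (w2 θ L M j)) ≤ κ2 := by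
            have h10 : 0 < tj θ M j * L / Real.log (w2 θ L M j) := by positivity
            have := Real.log_le_sub_one_of_pos h10
            linarith
          rw [Real.log_div (by positivity) hlj0.ne'] at h9
          linarith
        have e3 : Real.log (tj θ M (j + 1) * L) - Real.log (tj θ M j * L) =
            Real.log (tj θ M (j + 1) / tj θ M j) := by
          rw [Real.log_mul htj10.ne' hL.ne', Real.log_mul htj0.ne' hL.ne',
            Real.log_div htj10.ne' htj0.ne']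
          ring
        linarith
      have h8 : κ2 + 24 / (θ * L) = κ1 := by
        rw [hκ1, hκ2]
        ring
      linarith
    -- the bound for the other factor
    have hG : Gp (v - Real.log (w2 θ L M (j + 1)) / L) z ≤
        (1 + κ2) * Gp (u - tj θ M (j + 1)) θ := by
      have h5 : Gp (v - Real.log (w2 θ L M (j + 1)) / L) z ≤ Gp (u - tj θ M (j + 1)) z :=
        Gp_anti hz0 (by linarith) (by linarith)
      have h6 := Gp_scale (v := u - tj θ M (j + 1)) (by linarith) hz0 t2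
      have h7 : 0 ≤ Gp (u - tj θ M (j + 1)) θ := Gp_nonneg hθ (by linarith)
      exact (h5.trans h6).trans (mul_le_mul_of_nonneg_right hzθ h7)
    have h5 : A * Gp (v - Real.log (w2 θ L M (j + 1)) / L) z + ε * β ≤
        A * ((1 + κ2) * Gp (u - tj θ M (j + 1)) θ + ε) := by
      have h6 := mul_le_mul_of_nonneg_left hG hA0.le
      have h7 : ε * β ≤ A * ε := by
        rw [mul_comm A]
        exact mul_le_mul_of_nonneg_left (by linarith) hε0.le
      linarith
    have h6 : 0 ≤ A * ((1 + κ2) * Gp (u - tj θ M (j + 1)) θ + ε) := by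
      have h7 : 0 ≤ Gp (u - tj θ M (j + 1)) θ := Gp_nonneg hθ (by linarith)
      positivity
    calc B * (A * Gp (v - Real.log (w2 θ L M (j + 1)) / L) z + ε * β)
        ≤ B * (A * ((1 + κ2) * Gp (u - tj θ M (j + 1)) θ + ε)) :=
          mul_le_mul_of_nonneg_left h5 hB0
      _ ≤ (Real.log (tj θ M (j + 1) / tj θ M j) + κ1) *
          (A * ((1 + κ2) * Gp (u - tj θ M (j + 1)) θ + ε)) :=
          mul_le_mul_of_nonneg_right hBle h6
      _ = _ := by ring
  have hupper : ∑ p ∈ pw Wt x, ((Sf a (Tp a T p) Q).card : ℝ) ≤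
      X * (A * ((1 + κ2) * RS θ u M + M * κ1 * ((1 + κ2) * Gp (u - 1) θ) +
        ε * (Real.log (1 / θ) + M * κ1))) := by
    have e1 := h.pw_sum M (fun p => ((Sf a (Tp a T p) Q).card : ℝ)) M
    rw [h.w2_last hM] at e1
    rw [e1]
    refine (sum_le_sum fun j hj => hblock j (mem_range.1 hj)).trans ?_
    rw [← mul_sum, ← mul_sum]
    apply mul_le_mul_of_nonneg_left _ hXX.le
    apply mul_le_mul_of_nonneg_left _ hA0.le
    have e2 : ∀ j ∈ range M, (Real.log (tj θ M (j + 1) / tj θ M j) + κ1) *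
        ((1 + κ2) * Gp (u - tj θ M (j + 1)) θ + ε) ≤
        (1 + κ2) * (Real.log (tj θ M (j + 1) / tj θ M j) * Gp (u - tj θ M (j + 1)) θ) +
          κ1 * ((1 + κ2) * Gp (u - 1) θ) +
          ε * (Real.log (tj θ M (j + 1)) - Real.log (tj θ M j)) + ε * κ1 := by
      intro j hj
      have htj := tj_ge (θ := θ) (M := M) hθ1.le j
      have htj' := tj_ge (θ := θ) (M := M) hθ1.le (j + 1)
      have htj1 : tj θ M (j + 1) ≤ 1 := tj_le hM hθ1.le (by
        have := mem_range.1 hj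
        omega)
      have h5 : Gp (u - tj θ M (j + 1)) θ ≤ Gp (u - 1) θ :=
        Gp_anti hθ (by linarith) (by linarith)
      have h6 := mul_le_mul_of_nonneg_left h5 (show 0 ≤ κ1 * (1 + κ2) by positivity)
      have h7 : Real.log (tj θ M (j + 1) / tj θ M j) =
          Real.log (tj θ M (j + 1)) - Real.log (tj θ M j) :=
        Real.log_div (by linarith) (by linarith)
      rw [h7]
      linarith
    refine (sum_le_sum e2).trans (le_of_eq ?_)
    have e3 : ∑ j ∈ range M, (Real.log (tj θ M (j + 1)) - Real.log (tj θ M j)) =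
        Real.log (1 / θ) := by
      rw [sum_range_sub (fun j => Real.log (tj θ M j)), tj_last θ hM, tj_zero,
        Real.log_div one_ne_zero hθ.ne']
    have e4 : ∑ j ∈ range M, ε * (Real.log (tj θ M (j + 1)) - Real.log (tj θ M j)) =
        ε * Real.log (1 / θ) := by rw [← mul_sum, e3]
    rw [sum_add_distrib, sum_add_distrib, sum_add_distrib, ← mul_sum, e4, sum_const,
      sum_const, card_range, nsmul_eq_mul, nsmul_eq_mul]
    unfold RS
    ring
  by_contra hno
  push Not at hno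
  have hmany : ∀ n ∈ Sf a T Q, (r : ℝ) + 1 ≤ ∑ p ∈ pw Wt x, chi a p n := by
    intro n hn
    rw [mem_Sf, hT, mem_Sf] at hn
    obtain ⟨⟨hn1, hn2⟩, hn3⟩ := hn
    have hsm : ∀ p : ℕ, p.Prime → p ≤ Wt → ¬ hit a p n := by
      intro p hp hpW
      rcases le_or_gt p (W ^ 2) with h7 | h7
      · exact hn2 p (mem_prm.2 ⟨hp, h7⟩)
      · exact hn3 p (by rw [hQ]; exact mem_pw.2 ⟨hp, h7, hpW⟩)
    have h5 := hno n hn1 hsm ((pw Wt x).filter fun p => hit a p n)
    have h6 : r < ((pw Wt x).filter fun p => hit a p n).card := by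
      by_contra h7
      obtain ⟨p, hp1, hp2, hp3, hp4⟩ := h5 (not_lt.1 h7)
      apply hp4
      rw [mem_filter, mem_pw]
      refine ⟨⟨hp1, ?_, hp2⟩, hp3⟩
      by_contra h8
      exact hsm p hp1 (not_lt.1 h8) hp3
    have h7 : ∑ p ∈ pw Wt x, chi a p n = (((pw Wt x).filter fun p => hit a p n).card : ℝ) := by
      unfold chi
      rw [← sum_filter, sum_const, nsmul_eq_mul, mul_one]
    rw [h7]
    exact_mod_cast h6
  have hcount : ((r : ℝ) + 1) * ((Sf a T Q).card : ℝ) ≤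
      ∑ p ∈ pw Wt x, ((Sf a (Tp a T p) Q).card : ℝ) := by
    have e1 : ∑ p ∈ pw Wt x, ((Sf a (Tp a T p) Q).card : ℝ) =
        ∑ n ∈ Sf a T Q, ∑ p ∈ pw Wt x, chi a p n := by
      rw [sum_comm]
      exact sum_congr rfl fun p _ => card_tp p
    rw [e1]
    have e2 := card_nsmul_le_sum (Sf a T Q) (fun n => ∑ p ∈ pw Wt x, chi a p n) ((r : ℝ) + 1) hmany
    rw [nsmul_eq_mul] at e2
    linarith
  have hr0 : (0 : ℝ) ≤ r := Nat.cast_nonneg r
  have h4 : ((r : ℝ) + 1) * (X * (A * (Gm u θ - ε))) ≤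
      X * (A * ((1 + κ2) * RS θ u M + M * κ1 * ((1 + κ2) * Gp (u - 1) θ) +
        ε * (Real.log (1 / θ) + M * κ1))) :=
    ((mul_le_mul_of_nonneg_left hlow2 (by linarith)).trans hcount).trans hupper
  have h5 : X * (A * (((r : ℝ) + 1) * (Gm u θ - ε))) ≤
      X * (A * ((1 + κ2) * RS θ u M + M * κ1 * ((1 + κ2) * Gp (u - 1) θ) +
        ε * (Real.log (1 / θ) + M * κ1))) := by
    refine le_trans (le_of_eq ?_) h4
    ring
  have h6 := le_of_mul_le_mul_left (le_of_mul_le_mul_left h5 hXX) hA0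
  have h7 : M * κ1 * ((1 + κ2) * Gp (u - 1) θ) ≤ c0 / 8 := by
    refine le_trans ?_ h2
    apply mul_le_mul_of_nonneg_left _ (by positivity)
    exact mul_le_mul_of_nonneg_right (by linarith) hGs
  have h8 : ε * (M * κ1) ≤ ε * 1 := mul_le_mul_of_nonneg_left h3 hε0.le
  nlinarith

end Pool.LinSieve
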