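import Pool.Agent.H.MP_0c96e5_nt.helper74.Kuh2
import Pool.Agent.H.MP_0c96e5_nt.LinJ

/-!
# Kuhn's weights: choice of the parameters
-/

set_option autoImplicit false

open Finset MeasureTheory intervalIntegral Filter

namespace Pool.LinSieve

open Pool.Agent.H.MP_3e6494_nt (prm mem_prm)
open Pool.MP42e49e
open Pool.MP42e49e.R (floor_bounds FF_nonneg exp_neg_le_inv)

variable {θ u : ℝ}

/-- the integral which is compared with the lower bound -/
noncomputable def IK (θ u : ℝ) : ℝ := ∫ t in θ..1, Gp (u - t) θ / t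

theorem phi_cont (hθ : 0 < θ) (hu : 1 < u) : ContinuousOn (fun t => Gp (u - t) θ) (Set.Icc θ 1) := by
  unfold Gp LF
  apply ContinuousOn.div_const
  apply ContinuousOn.div
  · exact (La_cont.comp (by fun_prop)).continuousOn
  · fun_prop
  · intro t ht
    have : 0 < u - t := by linarith [ht.2]
    positivity

theorem phi_int (hθ : 0 < θ) (hu : 1 < u) {s t : ℝ} (h1 : θ ≤ s) (h2 : s ≤ t) (h3 : t ≤ 1) :
    IntervalIntegrable (fun t => Gp (u - t) θ / t) volume s t := by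
  apply ContinuousOn.intervalIntegrable
  rw [Set.uIcc_of_le h2]
  apply ContinuousOn.div
  · exact (phi_cont hθ hu).mono (Set.Icc_subset_Icc h1 h3)
  · exact continuousOn_id
  · intro x hx
    have : 0 < x := by linarith [hx.1]
    exact this.ne'

theorem block_int (hθ : 0 < θ) (hu : 1 < u) {s t : ℝ} (h1 : θ ≤ s) (h2 : s ≤ t) (h3 : t ≤ 1) :
    Real.log (t / s) * Gp (u - s) θ ≤ ∫ x in s..t, Gp (u - x) θ / x := by
  have hs : 0 < s := by linarith
  have ht : 0 < t := by linarith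
  have e1 : Real.log (t / s) * Gp (u - s) θ = ∫ x in s..t, Gp (u - s) θ / x := by
    have e2 : ∀ x : ℝ, Gp (u - s) θ / x = Gp (u - s) θ * x⁻¹ := fun x => div_eq_mul_inv _ _
    simp only [e2]
    rw [intervalIntegral.integral_const_mul, integral_inv_of_pos hs ht, mul_comm]
  rw [e1]
  apply intervalIntegral.integral_mono_on h2 _ (phi_int hθ hu h1 h2 h3)
  · intro x hx
    have hx0 : 0 < x := by linarith [hx.1]
    apply div_le_div_of_nonneg_right _ hx0.le
    exact Gp_anti hθ (by linarith [hx.2]) (by linarith [hx.1])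
  · apply ContinuousOn.intervalIntegrable
    rw [Set.uIcc_of_le h2]
    apply ContinuousOn.div continuousOn_const continuousOn_id
    intro x hx
    have : 0 < x := by linarith [hx.1]
    exact this.ne'

theorem RS_le (hθ : 0 < θ) (hθ1 : θ < 1) (hu : 1 < u) {M : ℕ} (hM : 1 ≤ M) :
    RS θ u M ≤ IK θ u + 1 / (M * θ) * Gp (u - 1) θ := by
  have hM0 : (0 : ℝ) < M := by exact_mod_cast hM
  have h1 : ∀ j ∈ range M, Real.log (tj θ M (j + 1) / tj θ M j) * Gp (u - tj θ M (j + 1)) θ ≤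
      (∫ x in (tj θ M j)..(tj θ M (j + 1)), Gp (u - x) θ / x) +
        1 / (M * θ) * (Gp (u - tj θ M (j + 1)) θ - Gp (u - tj θ M j) θ) := by
    intro j hj
    have hj' := mem_range.1 hj
    have g1 := tj_ge (θ := θ) (M := M) hθ1.le j
    have g2 := tj_mono (θ := θ) (M := M) hθ1.le (Nat.le_succ j)
    have g3 : tj θ M (j + 1) ≤ 1 := tj_le hM hθ1.le (by omega)
    have g4 := block_int hθ hu g1 g2 g3
    have hp0 : 0 < tj θ M j := by linarith
    have g5 : Real.log (tj θ M (j + 1) / tj θ M j) ≤ 1 / (M * θ) := by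
      have g6 : 0 < tj θ M (j + 1) := by linarith
      refine (Real.log_le_sub_one_of_pos (div_pos g6 hp0)).trans ?_
      have g7 : tj θ M (j + 1) / tj θ M j - 1 = (tj θ M (j + 1) - tj θ M j) / tj θ M j := by
        field_simp
      have g8 : tj θ M (j + 1) - tj θ M j = (1 - θ) / M := by
        unfold tj
        push_cast
        ring
      rw [g7, g8, div_div]
      apply div_le_div₀ (by norm_num) (by linarith) (by positivity)
      exact mul_le_mul_of_nonneg_left g1 hM0.le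
    have g6 : 0 ≤ Gp (u - tj θ M (j + 1)) θ - Gp (u - tj θ M j) θ := by
      have := Gp_anti (v := u - tj θ M (j + 1)) (v' := u - tj θ M j) hθ (by linarith) (by linarith)
      linarith
    have g7 := mul_le_mul_of_nonneg_right g5 g6
    have g8 : Real.log (tj θ M (j + 1) / tj θ M j) * Gp (u - tj θ M (j + 1)) θ =
        Real.log (tj θ M (j + 1) / tj θ M j) * Gp (u - tj θ M j) θ +
        Real.log (tj θ M (j + 1) / tj θ M j) *
          (Gp (u - tj θ M (j + 1)) θ - Gp (u - tj θ M j) θ) := by ring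
    linarith
  unfold RS
  refine (sum_le_sum h1).trans ?_
  rw [sum_add_distrib, ← mul_sum, sum_range_sub (fun j => Gp (u - tj θ M j) θ)]
  have h2 : ∑ j ∈ range M, ∫ x in (tj θ M j)..(tj θ M (j + 1)), Gp (u - x) θ / x = IK θ u := by
    unfold IK
    rw [intervalIntegral.sum_integral_adjacent_intervals]
    · rw [tj_zero, tj_last θ hM]
    · intro j hj
      exact phi_int hθ hu (tj_ge hθ1.le j) (tj_mono hθ1.le (Nat.le_succ j))
        (tj_le hM hθ1.le (by omega))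
  rw [h2, tj_last θ hM, tj_zero]
  have h3 : 0 ≤ Gp (u - θ) θ := Gp_nonneg hθ (by linarith)
  have h4 : 1 / (M * θ) * (Gp (u - 1) θ - Gp (u - θ) θ) ≤ 1 / (M * θ) * Gp (u - 1) θ :=
    mul_le_mul_of_nonneg_left (by linarith) (by positivity)
  linarith

theorem few_aux (hθ : 0 < θ) (hθ1 : θ < 1) (hu : 1 < u) {u' : ℝ} (huu : u < u') (hu' : u' ≤ 2)
    {r : ℕ} (hI : IK θ u < (r + 1) * Gm u θ) :
    ∀ᶠ x : ℕ in atTop, ∀ (y : ℕ) (a : ℕ → ℤ), Real.exp (u' * Real.log x) ≤ y →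
      ∃ n ∈ Icc 1 y, (∀ p : ℕ, p.Prime → p ≤ ⌊Real.exp (θ * Real.log x)⌋₊ → ¬ hit a p n) ∧
        ∃ s : Finset ℕ, s.card ≤ r ∧ ∀ p : ℕ, p.Prime → p ≤ x → hit a p n → p ∈ s := by
  obtain ⟨c0, hc0⟩ : ∃ c0, c0 = ((r + 1) * Gm u θ - IK θ u) / 2 := ⟨_, rfl⟩
  have hc0p : 0 < c0 := by rw [hc0]; linarith
  obtain ⟨η, hη⟩ : ∃ η : ℝ, η = min (1 / 2) ((u' - u) / 2) := ⟨_, rfl⟩
  have hη0 : 0 < η := by
    rw [hη]
    exact lt_min (by norm_num) (by linarith)
  have hη1 : η ≤ 1 / 2 := by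
    rw [hη]
    exact min_le_left _ _
  have hη2 : u + 2 * η ≤ u' := by
    have : η ≤ (u' - u) / 2 := by
      rw [hη]
      exact min_le_right _ _
    linarith
  have hlog : 0 ≤ Real.log (1 / θ) := Real.log_nonneg (by rw [one_le_div hθ]; exact hθ1.le)
  have hr0 : (0 : ℝ) ≤ r := Nat.cast_nonneg r
  have hrl : 0 < (r : ℝ) + 2 + Real.log (1 / θ) := by linarith
  obtain ⟨ε, hε⟩ : ∃ ε : ℝ, ε = c0 / 4 / (r + 2 + Real.log (1 / θ)) := ⟨_, rfl⟩
  have hε0 : 0 < ε := by rw [hε]; positivity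
  have hε1 : ε * (r + 2 + Real.log (1 / θ)) ≤ c0 / 4 := by
    rw [hε, div_mul_cancel₀ _ hrl.ne']
  obtain ⟨M, hM1, hM2⟩ : ∃ M : ℕ, 1 ≤ M ∧ 1 / (M * θ) * Gp (u - 1) θ ≤ c0 := by
    obtain ⟨M, hM⟩ := exists_nat_ge (Gp (u - 1) θ / θ / c0)
    refine ⟨M + 1, by omega, ?_⟩
    rw [div_le_iff₀ hc0p] at hM
    have hMp : (0 : ℝ) < ((M + 1 : ℕ) : ℝ) := by positivity
    have e1 : 1 / (((M + 1 : ℕ) : ℝ) * θ) * Gp (u - 1) θ =
        Gp (u - 1) θ / θ / ((M + 1 : ℕ) : ℝ) := by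
      field_simp
    rw [e1, div_le_iff₀ hMp]
    push_cast
    nlinarith
  have hRS := RS_le hθ hθ1 hu hM1
  have hfin : c0 ≤ (r + 1) * Gm u θ - RS θ u M := by linarith
  obtain ⟨c, hc⟩ : ∃ c : ℝ, c = min η (θ / 4) := ⟨_, rfl⟩
  have hcp : 0 < c := by
    rw [hc]
    exact lt_min hη0 (by positivity)
  have hc1 : c ≤ η := by
    rw [hc]
    exact min_le_left _ _
  have hc2 : c ≤ θ / 4 := by
    rw [hc]
    exact min_le_right _ _
  obtain ⟨R, hR1, hR2⟩ := exists_R (k := ε * c ^ 3 / 60) (by positivity)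
  have hR3 : (115 : ℝ) ≤ R := by exact_mod_cast hR1
  have hK0 : (0 : ℝ) < 4 * R + 28 := by positivity
  obtain ⟨β, hβ⟩ : ∃ β : ℝ, β = c / (4 * R + 28) := ⟨_, rfl⟩
  have hβ0 : 0 < β := by
    rw [hβ]
    positivity
  have hβc : (4 * R + 28) * β = c := by
    rw [hβ]
    field_simp
  have hβθ : 4 * β ≤ θ := by
    have h1 : 4 * β ≤ (4 * R + 28) * β := mul_le_mul_of_nonneg_right (by linarith) hβ0.le
    linarith
  obtain ⟨δ, hδ⟩ : ∃ δ : ℝ, δ = ε * β ^ 3 := ⟨_, rfl⟩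
  have hδ0 : 0 < δ := by
    rw [hδ]
    positivity
  have hRδ : 60 ≤ δ * 42 ^ R := by
    have h1 : δ * 42 ^ R = 60 * ((ε * c ^ 3 / 60 * 42 ^ R) / (4 * R + 28) ^ 3) := by
      rw [hδ, hβ]
      field_simp
    rw [h1]
    have h2 : 1 ≤ (ε * c ^ 3 / 60 * 42 ^ R) / (4 * (R : ℝ) + 28) ^ 3 := by
      rw [le_div_iff₀ (by positivity), one_mul]
      exact hR2
    linarith
  have hf4 : 0 < 48 / Lf 4 := by
    have := Lf4_pos
    positivity
  have hκ : 0 < ε * β ^ 5 := by positivity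
  obtain ⟨N, hN⟩ : ∃ N : ℕ, N = ⌈64 / β⌉₊ + ⌈48 / Lf 4 / (ε * β ^ 5)⌉₊ + 1 := ⟨_, rfl⟩
  have hN1 : 1 ≤ N := by omega
  have hNr : (N : ℝ) = (⌈64 / β⌉₊ : ℝ) + (⌈48 / Lf 4 / (ε * β ^ 5)⌉₊ : ℝ) + 1 := by
    rw [hN]
    push_cast
    ring
  have hN2 : 64 / β ≤ (N : ℝ) := by
    have h1 := Nat.le_ceil (64 / β)
    have h2 : (0 : ℝ) ≤ (⌈48 / Lf 4 / (ε * β ^ 5)⌉₊ : ℝ) := Nat.cast_nonneg _
    linarith
  have hN3 : 48 / Lf 4 / (ε * β ^ 5) ≤ (N : ℝ) := by
    have h1 := Nat.le_ceil (48 / Lf 4 / (ε * β ^ 5))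
    have h2 : (0 : ℝ) ≤ (⌈64 / β⌉₊ : ℝ) := Nat.cast_nonneg _
    linarith
  have hN0 : (0 : ℝ) < N := by
    have : (1 : ℝ) ≤ N := by exact_mod_cast hN1
    linarith
  have tL : Tendsto (fun x : ℕ => Real.log (x : ℝ)) atTop atTop :=
    Real.tendsto_log_atTop.comp tendsto_natCast_atTop_atTop
  have tl : Tendsto (fun x : ℕ => Real.log (Real.log (x : ℝ))) atTop atTop :=
    Real.tendsto_log_atTop.comp tL
  have p1 : 0 < (θ - 2 * β) / N := div_pos (by linarith) hN0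
  filter_upwards [eventually_ge_atTop 1, tl.eventually_ge_atTop 1000,
    tl.eventually_ge_atTop (2 / δ), tL.eventually (ev_log_pow (300 / β) 1),
    tL.eventually (ev_div 4 p1),
    tL.eventually (ev_div (48 / β) (show 0 < ((θ - 2 * β) / N) ^ 2 by positivity)),
    tL.eventually (ev_div 4 hβ0), tL.eventually (ev_div 1 hη0),
    tL.eventually (ev_div (2 / θ * RS θ u M) (show 0 < c0 / 8 by positivity)),
    tL.eventually (ev_div (M * (26 / θ) * (2 * Gp (u - 1) θ)) (show 0 < c0 / 8 by positivity)),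
    tL.eventually (ev_div (M * (26 / θ)) one_pos)] with x e0 e1 e2 e3 e4 e6 e9 e10 e11 e12 e13
  intro y a hy
  rw [div_le_iff₀ hδ0] at e2
  have hk : Lk θ u ε η β δ (Real.log x) (Real.log (Real.log x)) R N x y
      ⌊Real.exp (β * Real.log x)⌋₊ ⌊Real.exp (θ * Real.log x)⌋₊
      ⌊Real.exp ((u + η) * Real.log x)⌋₊ := by
    refine
      { hθ := hθ
        hθ1 := hθ1
        hu1 := hu
        hu2 := by linarith
        hε := hε0
        hη0 := hη0
        hη1 := hη1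
        hβ0 := hβ0
        hβθ := hβθ
        hβη := by linarith
        hδ0 := hδ0
        hδ := hδ.le
        hR := hR1
        hR2 := hRδ
        hN := hN1
        hN1 := ?_
        hN2 := ?_
        hx := e0
        hL := rfl
        hl := rfl
        hl1 := e1
        hl2 := by linarith
        hlq := ?_
        hL1 := e4
        hL3 := ?_
        hL6 := e9
        hW := rfl
        hWt := rfl
        hP := rfl
        hy := ?_ }
    · rw [div_le_iff₀ hβ0] at hN2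
      rw [div_le_iff₀ hN0]
      linarith
    · rw [div_le_iff₀ hκ] at hN3
      rw [div_le_iff₀ hN0]
      linarith
    · rw [pow_one, div_mul_eq_mul_div, div_le_iff₀ hβ0] at e3
      linarith
    · rwa [div_div] at e6
    · refine le_trans (Real.exp_le_exp.2 ?_) hy
      have : 0 ≤ Real.log (x : ℝ) := by
        apply Real.log_nonneg
        exact_mod_cast e0
      exact mul_le_mul_of_nonneg_right hη2 this
  refine hk.count hM1 hfin hc0p hε1 ?_ ?_ ?_ e10 a
  · refine le_trans (le_of_eq ?_) e11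
    have := hk.L_pos
    field_simp
  · refine le_trans (le_of_eq ?_) e12
    have := hk.L_pos
    field_simp
  · refine le_trans (le_of_eq ?_) e13
    have := hk.L_pos
    field_simp

/-- the theorem, in terms of the sieve functions -/
theorem few (hθ : 0 < θ) (hθ1 : θ < 1) (hu : 1 < u) {u' : ℝ} (huu : u < u') (hu' : u < 2)
    {r : ℕ} (hI : IK θ u < (r + 1) * Gm u θ) :
    ∃ x₀ : ℝ, ∀ (x y : ℕ) (m : ℤ), x₀ ≤ x → (x : ℝ) ^ u' ≤ y → ∃ n : ℤ, m < n ∧ n ≤ m + y ∧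
      (∀ p : ℕ, p.Prime → (p : ℝ) ≤ (x : ℝ) ^ θ → ¬ (p : ℤ) ∣ n) ∧
      {p : ℕ | p.Prime ∧ p ≤ x ∧ (p : ℤ) ∣ n}.ncard ≤ r := by
  have h1 := few_aux hθ hθ1 hu (u' := min u' 2) (lt_min huu hu') (min_le_right _ _) hI
  obtain ⟨X, hX⟩ := eventually_atTop.1 (h1.and (eventually_ge_atTop 3))
  refine ⟨X, ?_⟩
  intro x y m hx hy
  obtain ⟨h2, hx3⟩ := hX x (by exact_mod_cast hx)
  have hx0 : (3 : ℝ) ≤ x := by exact_mod_cast hx3
  have hxp : (0 : ℝ) < x := by linarith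
  have hpow : ∀ a : ℝ, (x : ℝ) ^ a = Real.exp (a * Real.log x) := by
    intro a
    rw [Real.rpow_def_of_pos hxp, mul_comm]
  obtain ⟨n, hn, h3, s, hs1, hs2⟩ := h2 y (fun _ => -m) (by
    rw [← hpow]
    exact (Real.rpow_le_rpow_of_exponent_le (by linarith) (min_le_left _ _)).trans hy)
  rw [mem_Icc] at hn
  have hhit : ∀ q : ℕ, hit (fun _ => -m) q n ↔ (q : ℤ) ∣ m + n := by
    intro q
    unfold hit
    have : (n : ℤ) - -m = m + n := by ring
    rw [this]
  refine ⟨m + n, by omega, by omega, ?_, ?_⟩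
  · intro p hp hpx hpn
    refine h3 p hp ?_ ((hhit p).2 hpn)
    apply Nat.le_floor
    rwa [← hpow]
  · have h4 : {p : ℕ | p.Prime ∧ p ≤ x ∧ (p : ℤ) ∣ m + n} ⊆ (s : Set ℕ) := by
      rintro p ⟨hp1, hp2, hp3⟩
      exact hs2 p hp1 hp2 ((hhit p).2 hp3)
    have h5 := Set.ncard_le_ncard h4 (finite_toSet s)
    rw [Set.ncard_coe_finset] at h5
    exact h5.trans hs1

end Pool.LinSieve
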