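import Pool.Agent.H.MP_0c96e5_nt.helper74.Kuh3

/-!
# Kuhn's weights: explicit exponents
-/

set_option autoImplicit false

open Finset MeasureTheory intervalIntegral

namespace Pool.LinSieve

variable {θ u : ℝ}

theorem Lb_log {s : ℝ} (h : 2 ≤ s) (h4 : s ≤ 4) : Lb s = Real.log (s - 1) := by
  have h1 := Lb_sub (le_refl (2 : ℝ)) h
  rw [Lb_zero le_rfl, sub_zero] at h1
  rw [h1]
  have h2 : ∫ t in ((2 : ℝ) - 1)..(s - 1), La t * wt t = ∫ t in (1 : ℝ)..(s - 1), t⁻¹ := by
    rw [show (2 : ℝ) - 1 = 1 by norm_num]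
    apply intervalIntegral.integral_congr
    intro t ht
    rw [Set.uIcc_of_le (by linarith)] at ht
    dsimp only
    rw [La_one (by linarith [ht.2]), wt_eq (by linarith [ht.1]), one_mul]
  rw [h2, integral_inv_of_pos one_pos (by linarith), div_one]

theorem Gm_eq' (hθ : 0 < θ) (hu : 0 < u) : Gm u θ = Lb (u / θ) / u := by
  unfold Gm Lf
  field_simp

theorem IK_closed (hθ : 0 < θ) (hθ1 : θ ≤ 1) (hu : 1 < u) (hu4 : u ≤ 4 * θ) :
    IK θ u = (Real.log ((u - θ) / θ) - Real.log (u - 1)) / u := by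
  have hu0 : 0 < u := by linarith
  unfold IK
  have h1 : ∫ t in θ..1, Gp (u - t) θ / t = ∫ t in θ..1, (t⁻¹ - (-1) / (u - t)) / u := by
    apply intervalIntegral.integral_congr
    intro t ht
    rw [Set.uIcc_of_le hθ1] at ht
    have ht0 : 0 < t := by linarith [ht.1]
    have ht1 : 0 < u - t := by linarith [ht.2]
    dsimp only
    have e1 : (u - t) / θ ≤ 3 := by
      rw [div_le_iff₀ hθ]
      linarith [ht.1]
    unfold Gp
    rw [LF_eq e1]
    field_simp
    ring
  rw [h1]
  have h2 : ∀ t ∈ Set.uIcc θ 1, HasDerivAt (fun t => (Real.log t - Real.log (u - t)) / u)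
      ((t⁻¹ - (-1) / (u - t)) / u) t := by
    intro t ht
    rw [Set.uIcc_of_le hθ1] at ht
    have ht0 : 0 < t := by linarith [ht.1]
    have ht1 : 0 < u - t := by linarith [ht.2]
    apply HasDerivAt.div_const
    apply HasDerivAt.sub (Real.hasDerivAt_log ht0.ne')
    exact ((hasDerivAt_id t).const_sub u).log ht1.ne'
  rw [intervalIntegral.integral_eq_sub_of_hasDerivAt h2]
  · rw [Real.log_one, Real.log_div (by linarith) hθ.ne']
    ring
  · apply ContinuousOn.intervalIntegrable
    rw [Set.uIcc_of_le hθ1]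
    apply ContinuousOn.div_const
    apply ContinuousOn.sub
    · apply ContinuousOn.inv₀ continuousOn_id
      intro t ht
      have : 0 < t := by linarith [ht.1]
      exact this.ne'
    · apply ContinuousOn.div continuousOn_const (by fun_prop)
      intro t ht
      have : 0 < u - t := by linarith [ht.2]
      exact this.ne'

/-- the first case -/
theorem cond_closed {r : ℕ} (hθ : 0 < θ) (hθ1 : θ ≤ 1) (hu : 1 < u) (hu4 : u ≤ 4 * θ)
    (h2 : 2 * θ ≤ u) (h : θ ^ r < (u - 1) * (u - θ) ^ r) :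
    IK θ u < (r + 1) * Gm u θ := by
  have hu0 : 0 < u := by linarith
  have hut : 0 < u - θ := by linarith
  rw [IK_closed hθ hθ1 hu hu4, Gm_eq' hθ hu0,
    Lb_log (by rw [le_div_iff₀ hθ]; linarith) (by rw [div_le_iff₀ hθ]; linarith)]
  have e : u / θ - 1 = (u - θ) / θ := by field_simp
  rw [e, ← mul_div_assoc, div_lt_div_iff_of_pos_right hu0]
  have h3 : 0 < r * Real.log ((u - θ) / θ) + Real.log (u - 1) := by
    rw [← Real.log_pow, ← Real.log_mul (by positivity) (by linarith)]
    apply Real.log_pos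
    rw [div_pow, div_mul_eq_mul_div, one_lt_div (by positivity)]
    linarith
  linarith

/-! ### The case `u = 6 θ` -/

theorem IK_six (hθ : 0 < θ) (hu : 1 < 6 * θ) (hθ1 : θ ≤ 1) : IK θ (6 * θ) =
    (∫ w in ((6 * θ - 1) / θ)..5, La w * (w⁻¹ + (6 - w)⁻¹)) / (6 * θ) := by
  have h1 := intervalIntegral.integral_comp_sub_mul (a := (6 * θ - 1) / θ) (b := 5)
    (fun t => Gp (6 * θ - t) θ / t) hθ.ne' (6 * θ)
  have e1 : 6 * θ - θ * 5 = θ := by ring
  have e2 : 6 * θ - θ * ((6 * θ - 1) / θ) = 1 := by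
    field_simp
    ring
  rw [e1, e2, smul_eq_mul] at h1
  have hw0 : 0 < (6 * θ - 1) / θ := div_pos (by linarith) hθ
  have hw5 : (6 * θ - 1) / θ ≤ 5 := by
    rw [div_le_iff₀ hθ]
    linarith
  have h2 : ∫ w in ((6 * θ - 1) / θ)..5, Gp (6 * θ - (6 * θ - θ * w)) θ / (6 * θ - θ * w) =
      ∫ w in ((6 * θ - 1) / θ)..5, La w * (w⁻¹ + (6 - w)⁻¹) / (6 * θ ^ 2) := by
    apply intervalIntegral.integral_congr
    intro w hw
    rw [Set.uIcc_of_le hw5] at hw
    have hw1 : 0 < w := by linarith [hw.1]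
    have hw2 : 0 < 6 - w := by linarith [hw.2]
    dsimp only
    have e3 : 6 * θ - (6 * θ - θ * w) = θ * w := by ring
    have e4 : 6 * θ - θ * w = θ * (6 - w) := by ring
    have e5 : θ * w / θ = w := by field_simp
    rw [e3, e4]
    unfold Gp LF
    rw [e5]
    field_simp
    ring
  rw [h2, intervalIntegral.integral_div] at h1
  have h3 : IK θ (6 * θ) = θ * ((∫ w in ((6 * θ - 1) / θ)..5, La w * (w⁻¹ + (6 - w)⁻¹)) /
      (6 * θ ^ 2)) := by
    rw [h1]
    unfold IK
    field_simp
  rw [h3]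
  field_simp

/-- integrability on subintervals of `(0, 6)` -/
theorem ker_int {a b : ℝ} (ha : 0 < a) (hab : a ≤ b) (hb : b < 6) :
    IntervalIntegrable (fun w => La w * (w⁻¹ + (6 - w)⁻¹)) volume a b ∧
    IntervalIntegrable (fun w => La w * w⁻¹) volume a b ∧
    IntervalIntegrable (fun w => La w * ((6 - w)⁻¹ - w⁻¹)) volume a b := by
  have h1 : ContinuousOn (fun w : ℝ => w⁻¹) (Set.Icc a b) := by
    apply ContinuousOn.inv₀ continuousOn_id
    intro t ht
    have : 0 < t := by linarith [ht.1]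
    exact this.ne'
  have h2 : ContinuousOn (fun w : ℝ => (6 - w)⁻¹) (Set.Icc a b) := by
    apply ContinuousOn.inv₀ (by fun_prop)
    intro t ht
    have : 0 < 6 - t := by linarith [ht.2]
    exact this.ne'
  refine ⟨?_, ?_, ?_⟩ <;> apply ContinuousOn.intervalIntegrable <;> rw [Set.uIcc_of_le hab]
  · exact La_cont.continuousOn.mul (h1.add h2)
  · exact La_cont.continuousOn.mul h1
  · exact La_cont.continuousOn.mul (h2.sub h1)

theorem ker_one {a b : ℝ} (ha : 0 < a) (hab : a ≤ b) (hb : b < 6) :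
    ∫ w in a..b, (w⁻¹ + (6 - w)⁻¹) = Real.log (b / (6 - b)) - Real.log (a / (6 - a)) := by
  have h2 : ∀ t ∈ Set.uIcc a b, HasDerivAt (fun t => Real.log t - Real.log (6 - t))
      (t⁻¹ - (-1) / (6 - t)) t := by
    intro t ht
    rw [Set.uIcc_of_le hab] at ht
    have ht0 : 0 < t := by linarith [ht.1]
    have ht1 : 0 < 6 - t := by linarith [ht.2]
    apply HasDerivAt.sub (Real.hasDerivAt_log ht0.ne')
    exact ((hasDerivAt_id t).const_sub 6).log ht1.ne'
  have h3 : ∫ w in a..b, (w⁻¹ + (6 - w)⁻¹) = ∫ w in a..b, (w⁻¹ - (-1) / (6 - w)) := by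
    apply intervalIntegral.integral_congr
    intro t _
    dsimp only
    rw [neg_div, one_div]
    ring
  rw [h3, intervalIntegral.integral_eq_sub_of_hasDerivAt h2]
  · rw [Real.log_div (by linarith) (by linarith), Real.log_div (by linarith) (by linarith)]
  · apply ContinuousOn.intervalIntegrable
    rw [Set.uIcc_of_le hab]
    apply ContinuousOn.sub
    · apply ContinuousOn.inv₀ continuousOn_id
      intro t ht
      have : 0 < t := by linarith [ht.1]
      exact this.ne'
    · apply ContinuousOn.div continuousOn_const (by fun_prop)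
      intro t ht
      have : 0 < 6 - t := by linarith [ht.2]
      exact this.ne'

/-- one piece of the integral -/
theorem piece {a b c : ℝ} (ha : 3 ≤ a) (hab : a ≤ b) (hb : b < 6) (hc : La b ≤ c) :
    ∫ w in a..b, La w * ((6 - w)⁻¹ - w⁻¹) ≤
      c * (Real.log (a * (6 - a)) - Real.log (b * (6 - b))) := by
  have h2 : ∀ t ∈ Set.uIcc a b, HasDerivAt (fun t => -(Real.log t + Real.log (6 - t)))
      (-(t⁻¹ + (-1) / (6 - t))) t := by
    intro t ht
    rw [Set.uIcc_of_le hab] at ht
    have ht0 : 0 < t := by linarith [ht.1]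
    have ht1 : 0 < 6 - t := by linarith [ht.2]
    apply HasDerivAt.neg
    apply HasDerivAt.add (Real.hasDerivAt_log ht0.ne')
    exact ((hasDerivAt_id t).const_sub 6).log ht1.ne'
  have hc1 : ContinuousOn (fun t : ℝ => -(t⁻¹ + (-1) / (6 - t))) (Set.Icc a b) := by
    apply ContinuousOn.neg
    apply ContinuousOn.add
    · apply ContinuousOn.inv₀ continuousOn_id
      intro t ht
      have : 0 < t := by linarith [ht.1]
      exact this.ne'
    · apply ContinuousOn.div continuousOn_const (by fun_prop)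
      intro t ht
      have : 0 < 6 - t := by linarith [ht.2]
      exact this.ne'
  have h3 : ∫ w in a..b, (-(w⁻¹ + (-1) / (6 - w))) =
      Real.log (a * (6 - a)) - Real.log (b * (6 - b)) := by
    rw [intervalIntegral.integral_eq_sub_of_hasDerivAt h2]
    · rw [Real.log_mul (by linarith) (by linarith), Real.log_mul (by linarith) (by linarith)]
      ring
    · apply ContinuousOn.intervalIntegrable
      rwa [Set.uIcc_of_le hab]
  rw [← h3, ← intervalIntegral.integral_const_mul]
  apply intervalIntegral.integral_mono_on hab (ker_int (by linarith) hab hb).2.2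
  · apply ContinuousOn.intervalIntegrable
    rw [Set.uIcc_of_le hab]
    exact continuousOn_const.mul hc1
  · intro t ht
    have ht0 : 0 < t := by linarith [ht.1]
    have ht1 : 0 < 6 - t := by linarith [ht.2]
    have e1 : -(t⁻¹ + (-1) / (6 - t)) = (6 - t)⁻¹ - t⁻¹ := by
      rw [neg_div, one_div]
      ring
    rw [e1]
    have h4 : 0 ≤ (6 - t)⁻¹ - t⁻¹ := by
      rw [sub_nonneg]
      exact inv_anti₀ ht1 (by linarith [ht.1])
    exact mul_le_mul_of_nonneg_right ((La_mono ht0 ht.2).trans hc) h4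

/-- one step of the bounds for `La` -/
theorem La_step {a b g : ℝ} (ha : 3 ≤ a) (hab : a ≤ b) (hb : b ≤ 5)
    (hg : Real.log (b - 2) ≤ g) : La b ≤ La a + (b - a) * (g / (a - 1)) := by
  have h1 := La_sub (show (2 : ℝ) ≤ a by linarith) (show (2 : ℝ) ≤ b by linarith)
  have h2 : ∫ t in (a - 1)..(b - 1), Lb t * wt t ≤ (g / (a - 1)) * ((b - 1) - (a - 1)) := by
    apply int_le Lbw_cont (by linarith)
    intro t ht1 ht2
    rw [Lb_log (by linarith) (by linarith), wt_eq (by linarith), ← div_eq_mul_inv]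
    have h3 : Real.log (t - 1) ≤ g :=
      (Real.log_le_log (by linarith) (by linarith)).trans hg
    have h4 : 0 ≤ g := (Real.log_nonneg (by linarith)).trans hg
    exact div_le_div₀ h4 h3 (by linarith) ht1
  have h3 : (g / (a - 1)) * ((b - 1) - (a - 1)) = (b - a) * (g / (a - 1)) := by ring
  linarith

theorem log_le_of_series {t c : ℝ} (ht : 0 < t) (hc : 0 ≤ c)
    (h : t ≤ ∑ i ∈ range 14, c ^ i / (Nat.factorial i : ℝ)) : Real.log t ≤ c := by
  rw [Real.log_le_iff_le_exp ht]
  exact h.trans (Real.sum_le_exp_of_nonneg hc 14)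

/-- the bounds for `La` on `[3, 5]` -/
theorem La_values : La (13 / 4) ≤ 103 / 100 ∧ La (7 / 2) ≤ 108 / 100 ∧ La (15 / 4) ≤ 113 / 100 ∧
    La 4 ≤ 120 / 100 ∧ La (17 / 4) ≤ 126 / 100 ∧ La (9 / 2) ≤ 134 / 100 ∧
    La (19 / 4) ≤ 141 / 100 ∧ La 5 ≤ 148 / 100 := by
  have l1 : Real.log (13 / 4 - 2) ≤ 2232 / 10000 :=
    log_le_of_series (by norm_num) (by norm_num) (by norm_num [sum_range_succ, Nat.factorial])
  have l2 : Real.log (7 / 2 - 2) ≤ 4055 / 10000 :=
    log_le_of_series (by norm_num) (by norm_num) (by norm_num [sum_range_succ, Nat.factorial])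
  have l3 : Real.log (15 / 4 - 2) ≤ 5597 / 10000 :=
    log_le_of_series (by norm_num) (by norm_num) (by norm_num [sum_range_succ, Nat.factorial])
  have l4 : Real.log (4 - 2) ≤ 6932 / 10000 :=
    log_le_of_series (by norm_num) (by norm_num) (by norm_num [sum_range_succ, Nat.factorial])
  have l5 : Real.log (17 / 4 - 2) ≤ 8110 / 10000 :=
    log_le_of_series (by norm_num) (by norm_num) (by norm_num [sum_range_succ, Nat.factorial])
  have l6 : Real.log (9 / 2 - 2) ≤ 9163 / 10000 :=
    log_le_of_series (by norm_num) (by norm_num) (by norm_num [sum_range_succ, Nat.factorial])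
  have l7 : Real.log (19 / 4 - 2) ≤ 10117 / 10000 :=
    log_le_of_series (by norm_num) (by norm_num) (by norm_num [sum_range_succ, Nat.factorial])
  have l8 : Real.log (5 - 2) ≤ 10987 / 10000 :=
    log_le_of_series (by norm_num) (by norm_num) (by norm_num [sum_range_succ, Nat.factorial])
  have h0 : La 3 = 1 := La_one le_rfl
  have s1 := La_step (a := 3) (b := 13 / 4) (by norm_num) (by norm_num) (by norm_num) l1
  have s2 := La_step (a := 13 / 4) (b := 7 / 2) (by norm_num) (by norm_num) (by norm_num) l2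
  have s3 := La_step (a := 7 / 2) (b := 15 / 4) (by norm_num) (by norm_num) (by norm_num) l3
  have s4 := La_step (a := 15 / 4) (b := 4) (by norm_num) (by norm_num) (by norm_num) l4
  have s5 := La_step (a := 4) (b := 17 / 4) (by norm_num) (by norm_num) (by norm_num) l5
  have s6 := La_step (a := 17 / 4) (b := 9 / 2) (by norm_num) (by norm_num) (by norm_num) l6
  have s7 := La_step (a := 9 / 2) (b := 19 / 4) (by norm_num) (by norm_num) (by norm_num) l7
  have s8 := La_step (a := 19 / 4) (b := 5) (by norm_num) (by norm_num) (by norm_num) l8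
  rw [h0] at s1
  norm_num at s1 s2 s3 s4 s5 s6 s7 s8
  refine ⟨?_, ?_, ?_, ?_, ?_, ?_, ?_, ?_⟩ <;> linarith

end Pool.LinSieve
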