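import Pool.Agent.H.MP_0c96e5_nt.helper74.Kuh4

/-!
# Kuhn's weights: the exponent `1 + 4 ^ (-r)`
-/

set_option autoImplicit false

open Finset MeasureTheory intervalIntegral

namespace Pool.LinSieve

variable {θ u : ℝ}

theorem num_aux : 103 * Real.log (144 / 143) + 108 * Real.log (143 / 140) +
    113 * Real.log (140 / 135) + 120 * Real.log (135 / 128) + 126 * Real.log (128 / 119) +
    134 * Real.log (119 / 108) + 141 * Real.log (108 / 95) + 148 * Real.log (95 / 80) <
    100 * Real.log (891 / 400) := by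
  have e1 : 103 * Real.log (144 / 143) + 108 * Real.log (143 / 140) +
    113 * Real.log (140 / 135) + 120 * Real.log (135 / 128) + 126 * Real.log (128 / 119) +
    134 * Real.log (119 / 108) + 141 * Real.log (108 / 95) + 148 * Real.log (95 / 80) =
    Real.log ((144 / 143) ^ 103 * (143 / 140) ^ 108 * (140 / 135) ^ 113 * (135 / 128) ^ 120 *
      (128 / 119) ^ 126 * (119 / 108) ^ 134 * (108 / 95) ^ 141 * (95 / 80) ^ 148) := by
    rw [Real.log_mul (by positivity) (by positivity), Real.log_mul (by positivity) (by positivity),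
      Real.log_mul (by positivity) (by positivity), Real.log_mul (by positivity) (by positivity),
      Real.log_mul (by positivity) (by positivity), Real.log_mul (by positivity) (by positivity),
      Real.log_mul (by positivity) (by positivity), Real.log_pow, Real.log_pow, Real.log_pow,
      Real.log_pow, Real.log_pow, Real.log_pow, Real.log_pow, Real.log_pow]
    push_cast
    ring
  have e2 : 100 * Real.log (891 / 400) = Real.log ((891 / 400) ^ 100) := by
    rw [Real.log_pow]
    push_cast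
    ring
  rw [e1, e2]
  apply Real.log_lt_log (by positivity)
  norm_num

theorem D_bound : ∫ w in (3 : ℝ)..5, La w * ((6 - w)⁻¹ - w⁻¹) < Real.log (891 / 400) := by
  obtain ⟨v1, v2, v3, v4, v5, v6, v7, v8⟩ := La_values
  have p1 := piece (a := 3) (b := 13 / 4) (by norm_num) (by norm_num) (by norm_num) v1
  have p2 := piece (a := 13 / 4) (b := 7 / 2) (by norm_num) (by norm_num) (by norm_num) v2
  have p3 := piece (a := 7 / 2) (b := 15 / 4) (by norm_num) (by norm_num) (by norm_num) v3
  have p4 := piece (a := 15 / 4) (b := 4) (by norm_num) (by norm_num) (by norm_num) v4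
  have p5 := piece (a := 4) (b := 17 / 4) (by norm_num) (by norm_num) (by norm_num) v5
  have p6 := piece (a := 17 / 4) (b := 9 / 2) (by norm_num) (by norm_num) (by norm_num) v6
  have p7 := piece (a := 9 / 2) (b := 19 / 4) (by norm_num) (by norm_num) (by norm_num) v7
  have p8 := piece (a := 19 / 4) (b := 5) (by norm_num) (by norm_num) (by norm_num) v8
  have i1 := (ker_int (a := 3) (b := 13 / 4) (by norm_num) (by norm_num) (by norm_num)).2.2
  have i2 := (ker_int (a := 13 / 4) (b := 7 / 2) (by norm_num) (by norm_num) (by norm_num)).2.2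
  have i3 := (ker_int (a := 7 / 2) (b := 15 / 4) (by norm_num) (by norm_num) (by norm_num)).2.2
  have i4 := (ker_int (a := 15 / 4) (b := 4) (by norm_num) (by norm_num) (by norm_num)).2.2
  have i5 := (ker_int (a := 4) (b := 17 / 4) (by norm_num) (by norm_num) (by norm_num)).2.2
  have i6 := (ker_int (a := 17 / 4) (b := 9 / 2) (by norm_num) (by norm_num) (by norm_num)).2.2
  have i7 := (ker_int (a := 9 / 2) (b := 19 / 4) (by norm_num) (by norm_num) (by norm_num)).2.2
  have i8 := (ker_int (a := 19 / 4) (b := 5) (by norm_num) (by norm_num) (by norm_num)).2.2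
  have hs : ∫ w in (3 : ℝ)..5, La w * ((6 - w)⁻¹ - w⁻¹) =
      (∫ w in (3 : ℝ)..(13 / 4), La w * ((6 - w)⁻¹ - w⁻¹)) +
      (∫ w in (13 / 4 : ℝ)..(7 / 2), La w * ((6 - w)⁻¹ - w⁻¹)) +
      (∫ w in (7 / 2 : ℝ)..(15 / 4), La w * ((6 - w)⁻¹ - w⁻¹)) +
      (∫ w in (15 / 4 : ℝ)..4, La w * ((6 - w)⁻¹ - w⁻¹)) +
      (∫ w in (4 : ℝ)..(17 / 4), La w * ((6 - w)⁻¹ - w⁻¹)) +
      (∫ w in (17 / 4 : ℝ)..(9 / 2), La w * ((6 - w)⁻¹ - w⁻¹)) +
      (∫ w in (9 / 2 : ℝ)..(19 / 4), La w * ((6 - w)⁻¹ - w⁻¹)) +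
      (∫ w in (19 / 4 : ℝ)..5, La w * ((6 - w)⁻¹ - w⁻¹)) := by
    have j1 := i1.trans i2
    have j2 := j1.trans i3
    have j3 := j2.trans i4
    have j4 := j3.trans i5
    have j5 := j4.trans i6
    have j6 := j5.trans i7
    rw [intervalIntegral.integral_add_adjacent_intervals i1 i2,
      intervalIntegral.integral_add_adjacent_intervals j1 i3,
      intervalIntegral.integral_add_adjacent_intervals j2 i4,
      intervalIntegral.integral_add_adjacent_intervals j3 i5,
      intervalIntegral.integral_add_adjacent_intervals j4 i6,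
      intervalIntegral.integral_add_adjacent_intervals j5 i7,
      intervalIntegral.integral_add_adjacent_intervals j6 i8]
  have d1 : Real.log (3 * (6 - 3)) - Real.log (13 / 4 * (6 - 13 / 4)) =
      Real.log (144 / 143) := by
    rw [← Real.log_div (by norm_num) (by norm_num)]
    norm_num
  have d2 : Real.log (13 / 4 * (6 - 13 / 4)) - Real.log (7 / 2 * (6 - 7 / 2)) =
      Real.log (143 / 140) := by
    rw [← Real.log_div (by norm_num) (by norm_num)]
    norm_num
  have d3 : Real.log (7 / 2 * (6 - 7 / 2)) - Real.log (15 / 4 * (6 - 15 / 4)) =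
      Real.log (140 / 135) := by
    rw [← Real.log_div (by norm_num) (by norm_num)]
    norm_num
  have d4 : Real.log (15 / 4 * (6 - 15 / 4)) - Real.log (4 * (6 - 4)) =
      Real.log (135 / 128) := by
    rw [← Real.log_div (by norm_num) (by norm_num)]
    norm_num
  have d5 : Real.log (4 * (6 - 4)) - Real.log (17 / 4 * (6 - 17 / 4)) =
      Real.log (128 / 119) := by
    rw [← Real.log_div (by norm_num) (by norm_num)]
    norm_num
  have d6 : Real.log (17 / 4 * (6 - 17 / 4)) - Real.log (9 / 2 * (6 - 9 / 2)) =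
      Real.log (119 / 108) := by
    rw [← Real.log_div (by norm_num) (by norm_num)]
    norm_num
  have d7 : Real.log (9 / 2 * (6 - 9 / 2)) - Real.log (19 / 4 * (6 - 19 / 4)) =
      Real.log (108 / 95) := by
    rw [← Real.log_div (by norm_num) (by norm_num)]
    norm_num
  have d8 : Real.log (19 / 4 * (6 - 19 / 4)) - Real.log (5 * (6 - 5)) =
      Real.log (95 / 80) := by
    rw [← Real.log_div (by norm_num) (by norm_num)]
    norm_num
  rw [d1] at p1
  rw [d2] at p2
  rw [d3] at p3
  rw [d4] at p4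
  rw [d5] at p5
  rw [d6] at p6
  rw [d7] at p7
  rw [d8] at p8
  have := num_aux
  rw [hs]
  linarith

theorem Lb_six : Lb 6 = Real.log 3 + ∫ w in (3 : ℝ)..5, La w * w⁻¹ := by
  have h1 := Lb_sub (le_refl (2 : ℝ)) (show (2 : ℝ) ≤ 6 by norm_num)
  rw [Lb_zero le_rfl, sub_zero] at h1
  have h2 : Lb 4 = Real.log 3 := by
    rw [Lb_log (by norm_num) le_rfl]
    norm_num
  have h3 := Lb_sub (show (2 : ℝ) ≤ 4 by norm_num) (show (2 : ℝ) ≤ 6 by norm_num)
  rw [h2] at h3
  have h4 : ∫ t in ((4 : ℝ) - 1)..(6 - 1), La t * wt t = ∫ w in (3 : ℝ)..5, La w * w⁻¹ := by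
    rw [show (4 : ℝ) - 1 = 3 by norm_num, show (6 : ℝ) - 1 = 5 by norm_num]
    apply intervalIntegral.integral_congr
    intro t ht
    rw [Set.uIcc_of_le (by norm_num)] at ht
    dsimp only
    rw [wt_eq (by linarith [ht.1])]
  rw [h4] at h3
  clear h1 h4
  linarith

theorem J_ge : Real.log (5 / 3) ≤ ∫ w in (3 : ℝ)..5, La w * w⁻¹ := by
  rw [← integral_inv_of_pos (by norm_num : (0 : ℝ) < 3) (by norm_num : (0 : ℝ) < 5)]
  apply intervalIntegral.integral_mono_on (by norm_num) _
    (ker_int (by norm_num) (by norm_num) (by norm_num)).2.1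
  · intro t ht
    have h1 : (1 : ℝ) ≤ La t := by
      have h2 : La 3 ≤ La t := La_mono (by norm_num) ht.1
      rwa [La_one le_rfl] at h2
    have h3 : 0 ≤ t⁻¹ := inv_nonneg.2 (by linarith [ht.1])
    nlinarith
  · apply ContinuousOn.intervalIntegrable
    rw [Set.uIcc_of_le (by norm_num)]
    apply ContinuousOn.inv₀ continuousOn_id
    intro t ht
    have : 0 < t := by linarith [ht.1]
    exact this.ne'

/-- the second case -/
theorem cond_six {r : ℕ} (hr : 1 ≤ r) (hθ : 6 * θ = 1 + 99 / 100 * (1 / 4) ^ r) :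
    IK θ (6 * θ) < (r + 1) * Gm (6 * θ) θ := by
  have hp : (0 : ℝ) < (1 / 4) ^ r := by positivity
  have hp1 : (1 / 4 : ℝ) ^ r ≤ (1 / 4) ^ 1 :=
    pow_le_pow_of_le_one (by norm_num) (by norm_num) hr
  have hu : 1 < 6 * θ := by linarith
  have hθ0 : 0 < θ := by linarith
  have hθ1 : θ ≤ 1 / 3 := by linarith
  rw [IK_six hθ0 hu (by linarith), Gm_eq' hθ0 (by linarith)]
  have e1 : 6 * θ / θ = 6 := by field_simp
  rw [e1, ← mul_div_assoc, div_lt_div_iff_of_pos_right (by linarith)]
  obtain ⟨w0, hw0⟩ : ∃ w0, w0 = (6 * θ - 1) / θ := ⟨_, rfl⟩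
  rw [← hw0]
  have hw0p : 0 < w0 := by
    rw [hw0]
    exact div_pos (by linarith) hθ0
  have hw03 : w0 ≤ 3 := by
    rw [hw0, div_le_iff₀ hθ0]
    linarith
  obtain ⟨J, hJ⟩ : ∃ J, J = ∫ w in (3 : ℝ)..5, La w * w⁻¹ := ⟨_, rfl⟩
  obtain ⟨D, hD⟩ : ∃ D, D = ∫ w in (3 : ℝ)..5, La w * ((6 - w)⁻¹ - w⁻¹) := ⟨_, rfl⟩
  have hJ5 := J_ge
  have hDb := D_bound
  have h6 := Lb_six
  rw [← hJ] at hJ5 h6
  rw [← hD] at hDb
  have k1 := ker_int (a := w0) (b := 3) hw0p hw03 (by norm_num)
  have k2 := ker_int (a := 3) (b := 5) (by norm_num) (by norm_num) (by norm_num)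
  have s1 : ∫ w in w0..3, La w * (w⁻¹ + (6 - w)⁻¹) = -Real.log (6 * θ - 1) := by
    have s2 : ∫ w in w0..3, La w * (w⁻¹ + (6 - w)⁻¹) = ∫ w in w0..3, (w⁻¹ + (6 - w)⁻¹) := by
      apply intervalIntegral.integral_congr
      intro t ht
      rw [Set.uIcc_of_le hw03] at ht
      dsimp only
      rw [La_one ht.2, one_mul]
    rw [s2, ker_one hw0p hw03 (by norm_num)]
    have s3 : w0 / (6 - w0) = 6 * θ - 1 := by
      have s4 : 6 - w0 = 1 / θ := by
        rw [hw0]
        field_simp
        ring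
      rw [s4, hw0]
      field_simp
    have s4 : (3 : ℝ) / (6 - 3) = 1 := by norm_num
    rw [s3, s4, Real.log_one, zero_sub]
  have s2 : ∫ w in (3 : ℝ)..5, La w * (w⁻¹ + (6 - w)⁻¹) = 2 * J + D := by
    have e2 : ∫ w in (3 : ℝ)..5, La w * (w⁻¹ + (6 - w)⁻¹) =
        ∫ w in (3 : ℝ)..5, (2 * (La w * w⁻¹) + La w * ((6 - w)⁻¹ - w⁻¹)) := by
      apply intervalIntegral.integral_congr
      intro t _
      dsimp only
      ring
    rw [e2, intervalIntegral.integral_add (k2.2.1.const_mul 2) k2.2.2,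
      intervalIntegral.integral_const_mul, ← hJ, ← hD]
  rw [← intervalIntegral.integral_add_adjacent_intervals k1.1 k2.1, s1, s2, h6]
  have l1 : Real.log (6 * θ - 1) = Real.log (99 / 100) - r * Real.log 4 := by
    have e2 : 6 * θ - 1 = 99 / 100 * (1 / 4) ^ r := by linarith
    rw [e2, Real.log_mul (by norm_num) (by positivity), Real.log_pow, one_div, Real.log_inv]
    ring
  have l2 : Real.log (891 / 400) = Real.log 3 + Real.log 3 + Real.log (99 / 100) -
      Real.log 4 := by
    rw [← Real.log_mul (by norm_num) (by norm_num), ← Real.log_mul (by norm_num) (by norm_num),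
      ← Real.log_div (by norm_num) (by norm_num)]
    norm_num
  have l3 : Real.log 4 ≤ Real.log 3 + J := by
    have e2 : Real.log 4 ≤ Real.log 5 := Real.log_le_log (by norm_num) (by norm_num)
    have e3 : Real.log 5 = Real.log 3 + Real.log (5 / 3) := by
      rw [← Real.log_mul (by norm_num) (by norm_num)]
      norm_num
    linarith
  have hr1 : (1 : ℝ) ≤ r := by exact_mod_cast hr
  have l4 : (r - 1) * Real.log 4 ≤ (r - 1) * (Real.log 3 + J) :=
    mul_le_mul_of_nonneg_left l3 (by linarith)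
  rw [l1]
  linarith

end Pool.LinSieve
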