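import Pool.Agent.H.MP_0c96e5_nt.helper74.Kuh5

/-!
# Blocks of consecutive integers contain integers with few prime factors up to `x`
-/

set_option autoImplicit false

namespace Pool.LinSieve

/-- The exponent `1 + 4 ^ (-r)`, for at most `r` prime factors. -/
theorem few_four {r : ℕ} (hr : 1 ≤ r) :
    ∃ x₀ : ℝ, ∀ (x y : ℕ) (m : ℤ), x₀ ≤ x → (x : ℝ) ^ (1 + (1 / 4 : ℝ) ^ r) ≤ y →
      ∃ n : ℤ, m < n ∧ n ≤ m + y ∧
        (∀ p : ℕ, p.Prime → (p : ℝ) ≤ (x : ℝ) ^ (1 / 6 : ℝ) → ¬ (p : ℤ) ∣ n) ∧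
        {p : ℕ | p.Prime ∧ p ≤ x ∧ (p : ℤ) ∣ n}.ncard ≤ r := by
  have hp : (0 : ℝ) < (1 / 4) ^ r := by positivity
  have hp1 : (1 / 4 : ℝ) ^ r ≤ (1 / 4) ^ 1 :=
    pow_le_pow_of_le_one (by norm_num) (by norm_num) hr
  obtain ⟨θ, hθ⟩ : ∃ θ : ℝ, 6 * θ = 1 + 99 / 100 * (1 / 4) ^ r :=
    ⟨(1 + 99 / 100 * (1 / 4) ^ r) / 6, by ring⟩
  obtain ⟨X, hX⟩ := few (θ := θ) (u := 6 * θ) (u' := 1 + (1 / 4 : ℝ) ^ r) (r := r)
    (by linarith) (by linarith) (by linarith) (by linarith) (by linarith) (cond_six hr hθ)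
  refine ⟨max X 1, ?_⟩
  intro x y m hx hy
  have hx0 := (le_max_left _ _).trans hx
  have hx1 : (1 : ℝ) ≤ x := (le_max_right _ _).trans hx
  obtain ⟨n, h1, h2, h3, h4⟩ := hX x y m hx0 hy
  refine ⟨n, h1, h2, fun p hp hpx => h3 p hp (hpx.trans ?_), h4⟩
  exact Real.rpow_le_rpow_of_exponent_le hx1 (by linarith)

/-- The exponent `2 - C`, `0 < C < 2 / 3`, for at most one prime factor. -/
theorem few_one {C θ : ℝ} (hC0 : 0 < C) (hC : C < 2 / 3) (hθ : θ < 1 - C) :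
    ∃ x₀ : ℝ, ∀ (x y : ℕ) (m : ℤ), x₀ ≤ x → (x : ℝ) ^ (2 - C) ≤ y →
      ∃ n : ℤ, m < n ∧ n ≤ m + y ∧
        (∀ p : ℕ, p.Prime → (p : ℝ) ≤ (x : ℝ) ^ θ → ¬ (p : ℤ) ∣ n) ∧
        {p : ℕ | p.Prime ∧ p ≤ x ∧ (p : ℤ) ∣ n}.ncard ≤ 1 := by
  obtain ⟨θ', h1, h2⟩ := exists_between (show max θ (1 / 3) < 1 - C from
    max_lt hθ (by linarith))
  have h3 : θ < θ' := (le_max_left _ _).trans_lt h1
  have h4 : 1 / 3 < θ' := (le_max_right _ _).trans_lt h1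
  obtain ⟨u, h5, h6⟩ := exists_between (show 1 + θ' < min (2 - C) (4 * θ') from
    lt_min (by linarith) (by linarith))
  have h7 : u < 2 - C := h6.trans_le (min_le_left _ _)
  have h8 : u < 4 * θ' := h6.trans_le (min_le_right _ _)
  have hc : IK θ' u < ((1 : ℕ) + 1) * Gm u θ' := by
    refine cond_closed (by linarith) (by linarith) (by linarith) h8.le (by linarith) ?_
    rw [pow_one, pow_one]
    nlinarith
  obtain ⟨X, hX⟩ := few (θ := θ') (u := u) (u' := 2 - C) (r := 1)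
    (by linarith) (by linarith) (by linarith) h7 (by linarith) hc
  refine ⟨max X 1, ?_⟩
  intro x y m hx hy
  have hx0 := (le_max_left _ _).trans hx
  have hx1 : (1 : ℝ) ≤ x := (le_max_right _ _).trans hx
  obtain ⟨n, g1, g2, g3, g4⟩ := hX x y m hx0 hy
  refine ⟨n, g1, g2, fun p hp hpx => g3 p hp (hpx.trans ?_), g4⟩
  exact Real.rpow_le_rpow_of_exponent_le hx1 h3.le

end Pool.LinSieve
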