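import Pool.Agent.H.MP_0c96e5_nt.LinO

/-!
# The linear sieve when the primes of a set do not sift: a quantitative lower bound, and the
elements in two of the classes of the set
-/

set_option autoImplicit false

open Finset MeasureTheory intervalIntegral

namespace Pool.LinSieve

open Pool.Agent.H.MP_3e6494_nt (prm mem_prm)
open Pool.MP42e49e

variable {a : ℕ → ℤ} {δ L A Am κ h : ℝ} {Ra : Finset ℕ} {w : ℕ → ℕ} {N : ℕ}

/-- **The linear sieve, when the primes of the set `Ra` do not sift**, with a lower bound for the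
number of survivors and an upper bound for the survivors in any set of the same kind. -/
theorem lin_set_lower {z0 v c σ : ℝ} (H : Stage w N L Am κ h ∅) (hz0 : z0 = Real.log (w 0) / L)
    (hA : A = z0 / LF (2 / z0)) (hδ : δ ≤ κ * z0 ^ 2) (hx : Real.log (w N) / L = 1)
    (hσ : σ = ∑ p ∈ pw (w 0) (w N) ∩ Ra, 1 / (p : ℝ)) (hAm : A * Real.exp (2 * σ) ≤ Am)
    {T : Finset ℕ} {X D : ℝ} (hX : 0 < X) (hD : 1 < D) (hv : v = Real.log D / L)
    (hv1 : 3 / 2 ≤ v) (hv2 : v ≤ 2) (hz1 : 2 * z0 ≤ v) (hc0 : 0 ≤ c)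
    (hc : ∀ i < N, 0 < rb Ra (w i) (w (i + 1)) →
      Real.log (w (i + 1)) / L / (Real.log (w i) / L) * G1 v (Real.log (w (i + 1)) / L) + c ≤
        Gp (v - Real.log (w (i + 1)) / L) (Real.log (w i) / L))
    (hd : Dist a δ T X D (Qn w Ra N)) :
    X * (A * (σ * c) - A * Real.exp (2 * σ) * (2 * (2 - v)) - κ) ≤
        ((Sf a T (Qn w Ra N)).card : ℝ) ∧
      ∀ (T' : Finset ℕ) (X' D' : ℝ), 0 ≤ X' → 1 < D' → Real.log D' ≤ 2 * L →
        Real.log D' / L ≤ 3 → Dist a δ T' X' D' (Qn w Ra N) →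
        ((Sf a T' (Qn w Ra N)).card : ℝ) ≤
          X' * (A * Real.exp (2 * σ) * (1 / (Real.log D' / L)) + κ) := by
  have hL := H.hL
  obtain ⟨hl0, hl1⟩ := H.log_ge (le_refl N)
  have hz0p : 0 < z0 := by
    rw [hz0]
    positivity
  have hAp : 0 < A := by
    rw [hA]
    exact div_pos hz0p (LF_pos (by positivity))
  have hD2 : Real.log D ≤ 2 * L := by
    rw [hv, div_le_iff₀ hL] at hv2
    exact hv2
  have hσi : ∀ i ≤ N, ∑ j ∈ range i, rb Ra (w j) (w (j + 1)) ≤ σ := by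
    intro i hi
    rw [hσ, ← H.sum_rb N le_rfl]
    apply sum_le_sum_of_subset_of_nonneg
    · intro j hj
      rw [mem_range] at hj ⊢
      omega
    · intro j _ _
      exact rb_nonneg
  have hAS : ∀ i ≤ N, AS A L Ra w i ≤ A * Real.exp (2 * σ) := by
    intro i hi
    refine (H.AS_le hAp.le i hi).trans (mul_le_mul_of_nonneg_left ?_ hAp.le)
    apply Real.exp_le_exp.2
    linarith [hσi i hi]
  obtain ⟨b1, b2⟩ := base (a := a) (δ := δ) (L := L) (A := A) (z := z0) (e := κ * z0 ^ 2) hL hz0p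
    hA hδ
  have hS : X * (A * G1 v z0 - κ * z0 ^ 2) ≤ ((Sf a T ∅).card : ℝ) := by
    rw [G1_eq hz0p hz1, hv]
    exact b2 T X D hX.le hD hD2 (hd.sub (empty_subset _))
  rw [hz0] at b1 b2 hS
  have s2 := H.pspecial hAp.le (fun i hi => (hAS i hi).trans hAm) b1 b2 hX.le hD hD2 hv hd hv1 hc
    hS N le_rfl
  rw [hx] at s2
  have e0 : A * (σ * c) ≤ ∑ j ∈ range N, rb Ra (w j) (w (j + 1)) * AS A L Ra w j * c := by
    rw [hσ, ← H.sum_rb N le_rfl, sum_mul, mul_sum]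
    refine sum_le_sum fun j hj => ?_
    have h1 := H.AS_ge (Ra := Ra) hAp.le j (mem_range.1 hj).le
    have h2 := rb_nonneg (Ra := Ra) (u := w j) (u' := w (j + 1))
    have h3 : A * (rb Ra (w j) (w (j + 1)) * c) ≤
        AS A L Ra w j * (rb Ra (w j) (w (j + 1)) * c) :=
      mul_le_mul_of_nonneg_right h1 (mul_nonneg h2 hc0)
    linarith
  have e1 : -(A * Real.exp (2 * σ) * (2 * (2 - v))) ≤ AS A L Ra w N * G1 v 1 := by
    have h1 := G1_one hv1 hv2
    have h2 := hAS N le_rfl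
    have h3 : 0 ≤ AS A L Ra w N := hAp.le.trans (H.AS_ge hAp.le N le_rfl)
    have h4 := mul_le_mul_of_nonneg_left h1 h3
    have h5 := mul_le_mul_of_nonneg_right h2 (show 0 ≤ 2 * (2 - v) by linarith)
    linarith
  constructor
  · refine le_trans (mul_le_mul_of_nonneg_left ?_ hX.le) s2
    linarith
  · intro T' X' D' hX' hD' hD2' hD3' hd'
    obtain ⟨h2, -⟩ := H.piter (Ra := Ra) hAp.le (fun i hi => (hAS i hi).trans hAm) b1 b2 N le_rfl
    rw [hx] at h2
    refine (h2 T' X' D' hX' hD' hD2' hd').trans (mul_le_mul_of_nonneg_left ?_ hX')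
    have h3 : Gp (Real.log D' / L) 1 = 1 / (Real.log D' / L) := by
      unfold Gp
      rw [div_one, div_one, LF_eq hD3']
    rw [h3]
    have h4 : 0 ≤ 1 / (Real.log D' / L) := by
      have := Real.log_pos hD'
      positivity
    have h5 := mul_le_mul_of_nonneg_right (hAS N le_rfl) h4
    linarith

/-- the survivors of the small primes are well distributed -/
theorem dist_small {y W P0 x : ℕ} (hδ0 : 0 ≤ δ) (a : ℕ → ℤ)
    (S1 : ∀ (b : ℕ → ℕ) (d c : ℕ), 0 < d → d ≤ P0 → (∀ q ∈ lS W, Nat.Coprime d q) →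
      |((sv b (lS W) (cls y d c)).card : ℝ) - (y : ℝ) / d * PP (lS W)| ≤
        δ * ((y : ℝ) / d * PP (lS W))) :
    Dist a δ (Sf a (Icc 1 y) (prm (W ^ 2))) (y * PP (lS W)) P0 (pw (W ^ 2) x) := by
  intro s hs hsP
  have hsp : ∀ p ∈ s, p.Prime ∧ W ^ 2 < p := by
    intro p hp
    have h2 := mem_pw.1 (hs hp)
    exact ⟨h2.1, h2.2.1⟩
  obtain ⟨c, hc1, hc2⟩ := exists_class_set a (s := s) fun p hp => (hsp p hp).1
  obtain ⟨B, hB1, hB2⟩ := exists_class (W ^ 2) a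
  obtain ⟨e, he⟩ : ∃ e, e = ∏ p ∈ s, p := ⟨_, rfl⟩
  rw [← he] at hc1 hc2 hsP ⊢
  have he0 : 0 < e := by omega
  have heP : e ≤ P0 := by exact_mod_cast hsP
  have heS : ∀ q ∈ lS W, Nat.Coprime e q := by
    intro q hq
    rw [he]
    refine Nat.Coprime.prod_left fun p hp => ?_
    have h1 := hsp p hp
    have h2 := mem_lS.1 hq
    exact (Nat.coprime_primes h1.1 h2.1).2 (by omega)
  have hset : Ts a (Sf a (Icc 1 y) (prm (W ^ 2))) s = sv (fun _ => B) (lS W) (cls y e c) := by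
    ext n
    rw [mem_Ts, mem_Sf, mem_sv, mem_cls, hc2 n]
    constructor
    · rintro ⟨⟨h1, h2⟩, h4⟩
      refine ⟨⟨h1, h4⟩, ?_⟩
      intro q hq
      have h5 := mem_lS.1 hq
      rw [hB2 q h5.1 h5.2 n]
      exact h2 q (mem_prm.2 h5)
    · rintro ⟨⟨h1, h4⟩, h2⟩
      refine ⟨⟨h1, ?_⟩, h4⟩
      intro q hq
      have h5 := mem_prm.1 hq
      have h6 := h2 q (mem_lS.2 h5)
      rw [hB2 q h5.1 h5.2 n] at h6
      exact h6
  rw [hset]
  have h1 := S1 (fun _ => B) e c he0 heP heS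
  have e1 : (y : ℝ) * PP (lS W) / e = (y : ℝ) / e * PP (lS W) := by ring
  rw [e1]
  exact h1

/-- if each survivor is in two of the classes, the number of survivors is at most the sum over the
pairs -/
theorem card_le_pairs {T Q : Finset ℕ}
    (h : ∀ n ∈ Sf a T Q, ∃ p ∈ Ra, ∃ q ∈ Ra, p ≠ q ∧ hit a p n ∧ hit a q n) :
    ((Sf a T Q).card : ℝ) ≤ ∑ t ∈ Ra.offDiag, ((Sf a (Tp a (Tp a T t.1) t.2) Q).card : ℝ) := by
  classical
  have h1 : Sf a T Q ⊆ Ra.offDiag.biUnion fun t => Sf a (Tp a (Tp a T t.1) t.2) Q := by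
    intro n hn
    obtain ⟨p, hp, q, hq, hpq, h2, h3⟩ := h n hn
    rw [mem_biUnion]
    refine ⟨(p, q), mem_offDiag.2 ⟨hp, hq, hpq⟩, ?_⟩
    rw [mem_Sf] at hn ⊢
    rw [mem_Tp, mem_Tp]
    exact ⟨⟨⟨hn.1, h2⟩, h3⟩, hn.2⟩
  have h2 := (card_le_card h1).trans card_biUnion_le
  exact_mod_cast h2

end Pool.LinSieve
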