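import Pool.Agent.H.MP_0c96e5_nt.helper74.Rob1

/-!
# A survivor in at most one of the classes modulo the primes of a set
-/

set_option autoImplicit false

open Finset MeasureTheory intervalIntegral

namespace Pool.LinSieve

open Pool.Agent.H.MP_3e6494_nt (prm mem_prm)
open Pool.MP42e49e

variable {α σ γ η β δ L l : ℝ} {R N x y W Wa P0 : ℕ} {Ra : Finset ℕ}

theorem offDiag_sum_le (Ra : Finset ℕ) :
    ∑ t ∈ Ra.offDiag, 1 / ((t.1 : ℝ) * t.2) ≤ (∑ p ∈ Ra, 1 / (p : ℝ)) ^ 2 := by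
  have h1 : ∑ t ∈ Ra.offDiag, 1 / ((t.1 : ℝ) * t.2) ≤ ∑ t ∈ Ra ×ˢ Ra, 1 / ((t.1 : ℝ) * t.2) := by
    apply sum_le_sum_of_subset_of_nonneg
    · intro t ht
      rw [mem_offDiag] at ht
      rw [mem_product]
      exact ⟨ht.1, ht.2.1⟩
    · intro t _ _
      positivity
  refine h1.trans (le_of_eq ?_)
  rw [sq, sum_mul_sum, sum_product]
  refine sum_congr rfl fun p _ => sum_congr rfl fun q _ => ?_
  rw [one_div_mul_one_div]

theorem Lq.one_class (h : Lq α σ γ η β δ L l R N x y W Wa P0 Ra) {ρ : ℝ} (hρ0 : 0 < ρ)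
    (hρη : 2 * η ≤ ρ) (hRρ : ∀ p ∈ Ra, Real.log p / L ≤ 1 - ρ)
    (hsm : (∑ p ∈ Ra, 1 / (p : ℝ)) * (2 / α ^ 2 / ρ + γ * σ / 3) < γ / 3) (a : ℕ → ℤ) :
    ∃ n ∈ Icc 1 y, (∀ p : ℕ, p.Prime → p ≤ x → p ∉ Ra → ¬ hit a p n) ∧
      ∀ p ∈ Ra, ∀ q ∈ Ra, hit a p n → hit a q n → p = q := by
  have hd := dist_small (x := x) h.hδ0.le a h.parR.S1
  obtain ⟨v, hv⟩ : ∃ v, v = Real.log P0 / L := ⟨_, rfl⟩
  obtain ⟨b1, b2, b3⟩ := h.v_bounds hv
  obtain ⟨A1, A2⟩ := h.A_bounds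
  obtain ⟨z1, z2⟩ := h.z0
  obtain ⟨c1, c2⟩ := h.zα
  have hL := h.L_pos
  have hβ := h.hβ0
  have hγ := h.hγ
  have hσ := h.hσ
  have hα := h.hα
  have hα1 := h.hα1
  have hP := h.P_facts
  obtain ⟨X, hX⟩ : ∃ X : ℝ, X = y * PP (lS W) := ⟨_, rfl⟩
  have hXX : 0 < X := by
    have h1 := h.y_pos
    have h2 := PPS_pos (W := W)
    rw [hX]
    positivity
  rw [← hX] at hd
  have h0 : wq W β L N 0 = W ^ 2 := wq_zero
  have h1 := h.wq_N
  have hQ : Qn (wq W β L N) Ra N = pw (W ^ 2) x \ Ra := by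
    unfold Qn
    rw [h0, h1]
  have hW2 := h.W2_le_Wa
  have hRpw : Ra ⊆ pw (W ^ 2) x := by
    intro p hp
    have := h.hRa p hp
    exact mem_pw.2 ⟨this.1, by omega, this.2.2⟩
  obtain ⟨S, hS⟩ : ∃ S : ℝ, S = ∑ p ∈ Ra, 1 / (p : ℝ) := ⟨_, rfl⟩
  have hσ' : S = ∑ p ∈ pw (wq W β L N 0) (wq W β L N N) ∩ Ra, 1 / (p : ℝ) := by
    rw [hS, h0, h1, inter_eq_right.2 hRpw]
  have hA0 : 0 < AA W L := by linarith
  have hexp := h.exp_rs
  have hσS := h.hσ2
  rw [← hS] at hexp hσS hsm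
  have hS0 : 0 < S := by linarith
  have hP2 : (2 : ℝ) ≤ P0 := by exact_mod_cast hP.2.2.2.2
  obtain ⟨hlow, hup⟩ := lin_set_lower (a := a) (δ := δ) (L := L) (A := AA W L) (κ := kq γ σ β)
    (Ra := Ra) (z0 := Real.log ((W ^ 2 : ℕ) : ℝ) / L) (v := v) (c := γ) h.stage (by rw [h0]) rfl
    (by
      have h4 : γ * σ * β ^ 3 / 2 ≤ kq γ σ β * (Real.log ((W ^ 2 : ℕ) : ℝ) / L) ^ 2 := by
        have e1 : γ * σ * β ^ 3 / 2 = kq γ σ β * β ^ 2 := by
          unfold kq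
          ring
        rw [e1]
        apply mul_le_mul_of_nonneg_left _ (by unfold kq; positivity)
        exact pow_le_pow_left₀ hβ.le (by linarith) 2
      linarith [h.hδ, h.hδ0])
    (by rw [h1, h.log_x]; exact div_self hL.ne') hσ'
    (mul_le_mul_of_nonneg_left hexp hA0.le)
    (T := Sf a (Icc 1 y) (prm (W ^ 2))) (X := X) (D := P0) hXX (by linarith) hv b3 b2 (by linarith)
    hγ.le
    (by
      intro i hi hrb
      have K := h.stage.blk hi
      have h4 : Wa < wq W β L N (i + 1) := by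
        by_contra h5
        have h6 : pw (wq W β L N i) (wq W β L N (i + 1)) ∩ Ra = ∅ := by
          ext p
          rw [mem_inter, mem_pw]
          constructor
          · rintro ⟨h7, h8⟩
            have := (h.hRa p h8).2.1
            omega
          · intro h7
            exact absurd h7 (notMem_empty p)
        unfold rb at hrb
        rw [h6, sum_empty] at hrb
        exact lt_irrefl _ hrb
      have h5 : Real.log Wa / L ≤ Real.log (wq W β L N (i + 1)) / L := by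
        apply div_le_div_of_nonneg_right _ hL.le
        apply Real.log_le_log
        · have : (2 : ℝ) ≤ Wa := by exact_mod_cast h.Wa_facts.2.2.2.2
          linarith
        · exact_mod_cast h4.le
      exact gain hα hα1 K.hz K.hzz K.hz1 (by linarith) b3 b2 h.hγ2)
    (by rw [hQ]; exact hd.sub sdiff_subset)
  rw [hQ] at hlow hup
  obtain ⟨A, hA⟩ : ∃ A, A = AA W L := ⟨_, rfl⟩
  rw [← hA] at hlow hup hA0 A1 A2
  -- the lower bound
  have hkq0 : 0 ≤ kq γ σ β := by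
    unfold kq
    positivity
  have e2 : A * Real.exp (2 * S) * (2 * (2 - v)) ≤ A * (γ * σ / 3) := by
    have e3 : (2 / α ^ 2) * (4 * η) ≤ γ * σ / 3 := by
      have h4 := h.hη2
      rw [div_mul_eq_mul_div, div_le_iff₀ (by positivity)]
      linarith
    have e1 : A * Real.exp (2 * S) * (2 * (2 - v)) ≤ A * (2 / α ^ 2) * (4 * η) := by
      apply mul_le_mul (mul_le_mul_of_nonneg_left hexp hA0.le) (by linarith) (by linarith)
      positivity
    refine e1.trans ?_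
    rw [mul_assoc]
    exact mul_le_mul_of_nonneg_left e3 hA0.le
  have e6 : kq γ σ β ≤ A * (γ * σ / 3) := by
    unfold kq
    have : 3 / 2 * β * (γ * σ / 3) ≤ A * (γ * σ / 3) :=
      mul_le_mul_of_nonneg_right A1 (by positivity)
    linarith
  have hlow2 : X * (A * (γ * S / 3)) ≤
      ((Sf a (Sf a (Icc 1 y) (prm (W ^ 2))) (pw (W ^ 2) x \ Ra)).card : ℝ) := by
    refine le_trans (mul_le_mul_of_nonneg_left ?_ hXX.le) hlow
    have h4 : A * (γ * σ) ≤ A * (γ * S) :=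
      mul_le_mul_of_nonneg_left (mul_le_mul_of_nonneg_left hσS hγ.le) hA0.le
    linarith
  by_contra hno
  push Not at hno
  have hpairs : ∀ n ∈ Sf a (Sf a (Icc 1 y) (prm (W ^ 2))) (pw (W ^ 2) x \ Ra),
      ∃ p ∈ Ra, ∃ q ∈ Ra, p ≠ q ∧ hit a p n ∧ hit a q n := by
    intro n hn
    rw [mem_Sf, mem_Sf] at hn
    obtain ⟨⟨hn1, hn2⟩, hn3⟩ := hn
    obtain ⟨p, hp, q, hq, h4, h5, h6⟩ := hno n hn1 (by
      intro p hp hpx hpR
      rcases le_or_gt p (W ^ 2) with h7 | h7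
      · exact hn2 p (mem_prm.2 ⟨hp, h7⟩)
      · exact hn3 p (mem_sdiff.2 ⟨mem_pw.2 ⟨hp, h7, hpx⟩, hpR⟩))
    exact ⟨p, hp, q, hq, h6, h4, h5⟩
  have h8 := card_le_pairs hpairs
  -- the upper bound for the pairs
  have h9 : ∀ t ∈ Ra.offDiag, ((Sf a (Tp a (Tp a (Sf a (Icc 1 y) (prm (W ^ 2))) t.1) t.2)
      (pw (W ^ 2) x \ Ra)).card : ℝ) ≤
      X * (A * (2 / α ^ 2) * (1 / ρ) + kq γ σ β) * (1 / ((t.1 : ℝ) * t.2)) := by
    rintro ⟨p, q⟩ ht
    rw [mem_offDiag] at ht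
    obtain ⟨hp, hq, hpq⟩ := ht
    dsimp only at hp hq hpq ⊢
    obtain ⟨p1, p2, p3⟩ := h.hRa p hp
    obtain ⟨q1, q2, q3⟩ := h.hRa q hq
    have hp0 : (0 : ℝ) < p := by exact_mod_cast p1.pos
    have hq0 : (0 : ℝ) < q := by exact_mod_cast q1.pos
    have d1 : Dist a δ (Tp a (Sf a (Icc 1 y) (prm (W ^ 2))) p) (X / p) ((P0 : ℝ) / p)
        (insert q (pw (W ^ 2) x \ Ra)) := by
      refine hd.tp p1.pos ?_ ?_
      · rw [mem_insert, mem_sdiff]
        push Not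
        exact ⟨hpq, fun _ => hp⟩
      · intro r hr
        rw [mem_insert, mem_insert] at hr
        rcases hr with rfl | rfl | hr
        · exact hRpw hp
        · exact hRpw hq
        · exact (mem_sdiff.1 hr).1
    have d2 : Dist a δ (Tp a (Tp a (Sf a (Icc 1 y) (prm (W ^ 2))) p) q) (X / p / q)
        ((P0 : ℝ) / p / q) (pw (W ^ 2) x \ Ra) :=
      d1.tp q1.pos (fun h5 => (mem_sdiff.1 h5).2 hq) le_rfl
    have hP0 : (0 : ℝ) < P0 := by linarith
    have l1 : Real.log ((P0 : ℝ) / p / q) / L = v - Real.log p / L - Real.log q / L := by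
      rw [Real.log_div (by positivity) hq0.ne', Real.log_div hP0.ne' hp0.ne', hv]
      ring
    have l2 := hRρ p hp
    have l3 := hRρ q hq
    have l4 : ρ ≤ Real.log ((P0 : ℝ) / p / q) / L := by
      rw [l1]
      linarith
    have l5 : 0 ≤ Real.log (p : ℝ) / L :=
      div_nonneg (Real.log_nonneg (by exact_mod_cast p1.one_lt.le)) hL.le
    have l6 : 0 ≤ Real.log (q : ℝ) / L :=
      div_nonneg (Real.log_nonneg (by exact_mod_cast q1.one_lt.le)) hL.le
    have l7 : Real.log ((P0 : ℝ) / p / q) / L ≤ 2 := by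
      rw [l1]
      linarith
    have l8 : 0 < Real.log ((P0 : ℝ) / p / q) := by
      by_contra h5
      have := div_nonpos_of_nonpos_of_nonneg (not_lt.1 h5) hL.le
      linarith
    have l9 : 1 < (P0 : ℝ) / p / q := (Real.log_pos_iff (by positivity)).1 l8
    have u1 := hup _ (X / p / q) ((P0 : ℝ) / p / q) (by positivity) l9
      (by rw [div_le_iff₀ hL] at l7; exact l7) (by linarith) d2
    refine u1.trans ?_
    have u2 : 1 / (Real.log ((P0 : ℝ) / p / q) / L) ≤ 1 / ρ :=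
      one_div_le_one_div_of_le hρ0 l4
    have u3 : A * Real.exp (2 * S) * (1 / (Real.log ((P0 : ℝ) / p / q) / L)) ≤
        A * (2 / α ^ 2) * (1 / ρ) := by
      apply mul_le_mul (mul_le_mul_of_nonneg_left hexp hA0.le) u2
      · exact one_div_nonneg.2 (by linarith)
      · positivity
    have u4 : X / p / q * (A * Real.exp (2 * S) * (1 / (Real.log ((P0 : ℝ) / p / q) / L)) +
        kq γ σ β) ≤ X / p / q * (A * (2 / α ^ 2) * (1 / ρ) + kq γ σ β) :=
      mul_le_mul_of_nonneg_left (by linarith) (by positivity)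
    refine u4.trans (le_of_eq ?_)
    field_simp
  have h10 := h8.trans (sum_le_sum h9)
  rw [← mul_sum] at h10
  have h11 : X * (A * (2 / α ^ 2) * (1 / ρ) + kq γ σ β) *
      ∑ t ∈ Ra.offDiag, 1 / ((t.1 : ℝ) * t.2) ≤
      X * (A * (2 / α ^ 2) * (1 / ρ) + kq γ σ β) * S ^ 2 := by
    rw [hS]
    exact mul_le_mul_of_nonneg_left (offDiag_sum_le Ra) (by positivity)
  have h12 : X * (A * (2 / α ^ 2) * (1 / ρ) + kq γ σ β) * S ^ 2 ≤
      X * (A * (S * (S * (2 / α ^ 2 / ρ + γ * σ / 3)))) := by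
    have h13 : A * (2 / α ^ 2) * (1 / ρ) + kq γ σ β ≤ A * (2 / α ^ 2 / ρ + γ * σ / 3) := by
      have h14 : A * (2 / α ^ 2) * (1 / ρ) = A * (2 / α ^ 2 / ρ) := by
        field_simp
      linarith
    have h15 := mul_le_mul_of_nonneg_left h13 (show 0 ≤ X * S ^ 2 by positivity)
    have h16 : X * (A * (2 / α ^ 2) * (1 / ρ) + kq γ σ β) * S ^ 2 =
        X * S ^ 2 * (A * (2 / α ^ 2) * (1 / ρ) + kq γ σ β) := by ring
    have h17 : X * (A * (S * (S * (2 / α ^ 2 / ρ + γ * σ / 3)))) =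
        X * S ^ 2 * (A * (2 / α ^ 2 / ρ + γ * σ / 3)) := by ring
    rw [h16, h17]
    exact h15
  have h18 : X * (A * (S * (S * (2 / α ^ 2 / ρ + γ * σ / 3)))) < X * (A * (S * (γ / 3))) :=
    mul_lt_mul_of_pos_left (mul_lt_mul_of_pos_left (mul_lt_mul_of_pos_left hsm hS0) hA0) hXX
  have h19 : X * (A * (S * (γ / 3))) = X * (A * (γ * S / 3)) := by ring
  linarith

end Pool.LinSieve
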