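import Pool.Agent.H.MP_0c96e5_nt.helper74.Rob2
import Pool.Agent.H.MP_0c96e5_nt.LinJ

/-!
# One prime removed: the theorem
-/

set_option autoImplicit false

open Finset Filter

namespace Pool.LinSieve

open Pool.Agent.H.MP_3e6494_nt (prm mem_prm)
open Pool.MP42e49e
open Pool.MP42e49e.R (floor_bounds FF_nonneg)

/-- the loss in the level -/
noncomputable def η2 (α σ : ℝ) : ℝ := min (1 / 8) ((Lf (4 / α) - Lf (3 / α)) * σ * α ^ 2 / 24)

theorem exists_par2 {α σ : ℝ} (hα : 0 < α) (hα1 : α ≤ 1 / 2) (hσ : 0 < σ) :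
    ∃ (β δ : ℝ) (R N : ℕ), ∀ᶠ x : ℕ in atTop, ∀ (y : ℕ) (Ra : Finset ℕ),
      (∀ p ∈ Ra, p.Prime ∧ Real.exp (α * Real.log x) < p ∧ p ≤ x) →
      σ ≤ ∑ p ∈ Ra, 1 / (p : ℝ) → Real.exp ((2 - η2 α σ / 2) * Real.log x) ≤ y →
      Lq α σ (Lf (4 / α) - Lf (3 / α)) (η2 α σ) β δ (Real.log x) (Real.log (Real.log x)) R N x y
        ⌊Real.exp (β * Real.log x)⌋₊ ⌊Real.exp (α * Real.log x)⌋₊
        ⌊Real.exp ((2 - η2 α σ) * Real.log x)⌋₊ Ra := by
  obtain ⟨γ, hγ⟩ : ∃ γ : ℝ, γ = Lf (4 / α) - Lf (3 / α) := ⟨_, rfl⟩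
  have hγ0 : 0 < γ := by
    have h1 := Lf_strict (s := 3 / α) (s' := 4 / α) (by rw [le_div_iff₀ hα]; linarith)
      (div_lt_div_of_pos_right (by norm_num) hα)
    rw [hγ]
    linarith
  obtain ⟨η, hη⟩ : ∃ η : ℝ, η = min (1 / 8) (γ * σ * α ^ 2 / 24) := ⟨_, rfl⟩
  have hη2' : η2 α σ = η := by
    unfold η2
    rw [hη, hγ]
  rw [hη2']
  have hη0 : 0 < η := by
    rw [hη]
    exact lt_min (by norm_num) (by positivity)
  have hη1 : η ≤ 1 / 8 := by
    rw [hη]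
    exact min_le_left _ _
  have hη2 : 24 * η ≤ γ * σ * α ^ 2 := by
    have h1 : η ≤ γ * σ * α ^ 2 / 24 := by
      rw [hη]
      exact min_le_right _ _
    linarith
  obtain ⟨c, hc⟩ : ∃ c : ℝ, c = min (η / 2) (α / 4) := ⟨_, rfl⟩
  have hc0 : 0 < c := by
    rw [hc]
    exact lt_min (by linarith) (by linarith)
  have hc1 : c ≤ η / 2 := by
    rw [hc]
    exact min_le_left _ _
  have hc2 : c ≤ α / 4 := by
    rw [hc]
    exact min_le_right _ _
  obtain ⟨R, hR1, hR2⟩ := exists_R (k := γ * σ * c ^ 3 / 360) (by positivity)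
  have hR3 : (115 : ℝ) ≤ R := by exact_mod_cast hR1
  have hK0 : (0 : ℝ) < 4 * R + 28 := by positivity
  obtain ⟨β, hβ⟩ : ∃ β : ℝ, β = c / (4 * R + 28) := ⟨_, rfl⟩
  have hβ0 : 0 < β := by
    rw [hβ]
    positivity
  have hβc : (4 * R + 28) * β = c := by
    rw [hβ]
    field_simp
  have hβα : 4 * β ≤ α := by
    have h1 : 4 * β ≤ (4 * R + 28) * β := mul_le_mul_of_nonneg_right (by linarith) hβ0.le
    linarith
  obtain ⟨δ, hδ⟩ : ∃ δ : ℝ, δ = min (γ * σ * β ^ 3 / 6) (1 / 8) := ⟨_, rfl⟩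
  have hδ0 : 0 < δ := by
    rw [hδ]
    exact lt_min (by positivity) (by norm_num)
  have hδ1 : δ ≤ 1 / 8 := by
    rw [hδ]
    exact min_le_right _ _
  have hδ2 : 6 * δ ≤ γ * σ * β ^ 3 := by
    have : δ ≤ γ * σ * β ^ 3 / 6 := by
      rw [hδ]
      exact min_le_left _ _
    linarith
  have hRδ : 60 ≤ δ * 42 ^ R := by
    rw [hδ, min_mul_of_nonneg _ _ (by positivity)]
    apply le_min
    · have h1 : γ * σ * β ^ 3 / 6 * 42 ^ R =
          60 * ((γ * σ * c ^ 3 / 360 * 42 ^ R) / (4 * R + 28) ^ 3) := by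
        rw [hβ]
        field_simp
        ring
      rw [h1]
      have h2 : 1 ≤ (γ * σ * c ^ 3 / 360 * 42 ^ R) / (4 * (R : ℝ) + 28) ^ 3 := by
        rw [le_div_iff₀ (by positivity), one_mul]
        exact hR2
      linarith
    · have h1 : (42 : ℝ) ^ 2 ≤ 42 ^ R := pow_le_pow_right₀ (by norm_num) (by omega)
      linarith
  have hf4 : 0 < 48 / (Lf 4 * α ^ 2) := by
    have := Lf4_pos
    positivity
  have hκ : 0 < γ * σ * β ^ 5 := by positivity
  obtain ⟨N, hN⟩ : ∃ N : ℕ,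
    N = ⌈64 / β⌉₊ + ⌈48 / (Lf 4 * α ^ 2) / (γ * σ * β ^ 5)⌉₊ + 1 := ⟨_, rfl⟩
  have hN1 : 1 ≤ N := by omega
  have hNr : (N : ℝ) =
      (⌈64 / β⌉₊ : ℝ) + (⌈48 / (Lf 4 * α ^ 2) / (γ * σ * β ^ 5)⌉₊ : ℝ) + 1 := by
    rw [hN]
    push_cast
    ring
  have hN2 : 64 / β ≤ (N : ℝ) := by
    have h1 := Nat.le_ceil (64 / β)
    have h2 : (0 : ℝ) ≤ (⌈48 / (Lf 4 * α ^ 2) / (γ * σ * β ^ 5)⌉₊ : ℝ) := Nat.cast_nonneg _
    linarith
  have hN3 : 48 / (Lf 4 * α ^ 2) / (γ * σ * β ^ 5) ≤ (N : ℝ) := by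
    have h1 := Nat.le_ceil (48 / (Lf 4 * α ^ 2) / (γ * σ * β ^ 5))
    have h2 : (0 : ℝ) ≤ (⌈64 / β⌉₊ : ℝ) := Nat.cast_nonneg _
    linarith
  have hN0 : (0 : ℝ) < N := by
    have : (1 : ℝ) ≤ N := by exact_mod_cast hN1
    linarith
  rw [← hγ]
  refine ⟨β, δ, R, N, ?_⟩
  have tL : Tendsto (fun x : ℕ => Real.log (x : ℝ)) atTop atTop :=
    Real.tendsto_log_atTop.comp tendsto_natCast_atTop_atTop
  have tl : Tendsto (fun x : ℕ => Real.log (Real.log (x : ℝ))) atTop atTop :=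
    Real.tendsto_log_atTop.comp tL
  have p1 : 0 < (1 - 2 * β) / N := div_pos (by linarith) hN0
  filter_upwards [eventually_ge_atTop 1, tl.eventually_ge_atTop 1000,
    tl.eventually_ge_atTop (2 / δ), tL.eventually (ev_log_pow (300 / β) 1),
    tL.eventually (ev_div 4 p1),
    tL.eventually (ev_div (48 / β) (show 0 < ((1 - 2 * β) / N) ^ 2 by positivity)),
    tL.eventually (ev_div 4 hβ0)] with x e0 e1 e2 e3 e4 e6 e9
  intro y Ra hRa hσR hy
  rw [div_le_iff₀ hδ0] at e2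
  refine
    { hα := hα
      hα1 := hα1
      hσ := hσ
      hσ2 := hσR
      hRa := ?_
      hγ := hγ0
      hγ2 := hγ.le
      hη0 := hη0
      hη1 := hη1
      hη2 := hη2
      hβ0 := hβ0
      hβα := hβα
      hβη := by linarith
      hδ0 := hδ0
      hδ := hδ2
      hδ1 := hδ1
      hR := hR1
      hR2 := hRδ
      hN := hN1
      hN1 := ?_
      hN2 := ?_
      hx := e0
      hL := rfl
      hl := rfl
      hl1 := e1
      hl2 := by linarith
      hlq := ?_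
      hL1 := e4
      hL3 := ?_
      hL6 := e9
      hW := rfl
      hWa := rfl
      hP := rfl
      hy := hy }
  · intro p hp
    obtain ⟨h1, h2, h3⟩ := hRa p hp
    exact ⟨h1, (Nat.floor_lt (Real.exp_pos _).le).2 h2, h3⟩
  · rw [div_le_iff₀ hβ0] at hN2
    rw [div_le_iff₀ hN0]
    linarith
  · rw [div_le_iff₀ hκ] at hN3
    rw [div_le_iff₀ hN0]
    linarith
  · rw [pow_one, div_mul_eq_mul_div, div_le_iff₀ hβ0] at e3
    linarith
  · rwa [div_div] at e6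


theorem exists_subset_sum {f : ℕ → ℝ} {τ : ℝ} (hτ : 0 < τ) (s : Finset ℕ) :
    (∀ p ∈ s, f p ≤ τ) → τ ≤ ∑ p ∈ s, f p → ∃ t ⊆ s, τ ≤ ∑ p ∈ t, f p ∧ ∑ p ∈ t, f p ≤ 2 * τ := by
  classical
  induction s using Finset.induction with
  | empty =>
    intro _ h
    refine ⟨∅, le_rfl, h, ?_⟩
    rw [sum_empty] at h ⊢
    linarith
  | insert p s hp ih =>
    intro h1 h2
    rcases le_or_gt τ (∑ q ∈ s, f q) with h3 | h3
    · obtain ⟨t, ht, h4⟩ := ih (fun q hq => h1 q (mem_insert_of_mem hq)) h3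
      exact ⟨t, ht.trans (subset_insert p s), h4⟩
    · refine ⟨insert p s, le_rfl, h2, ?_⟩
      rw [sum_insert hp]
      have := h1 p (mem_insert_self p s)
      linarith

theorem coprime_primorial_div {x p : ℕ} (hp : p.Prime) (hpx : p ≤ x) {k : ℤ}
    (h : ∀ q : ℕ, q.Prime → q ≤ x → q ≠ p → ¬ (q : ℤ) ∣ k) :
    IsCoprime k ((primorial x / p : ℕ) : ℤ) := by
  have hmem : p ∈ (range (x + 1)).filter Nat.Prime := by
    rw [mem_filter, mem_range]
    exact ⟨by omega, hp⟩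
  have h1 : primorial x / p = ∏ q ∈ ((range (x + 1)).filter Nat.Prime).erase p, q := by
    unfold primorial
    rw [← mul_prod_erase _ _ hmem, Nat.mul_div_cancel_left _ hp.pos]
  rw [h1, Nat.cast_prod]
  refine IsCoprime.prod_right fun q hq => ?_
  rw [mem_erase, mem_filter, mem_range] at hq
  have h2 := h q hq.2.2 (by omega) hq.1
  rw [isCoprime_comm, Int.isCoprime_iff_nat_coprime]
  rw [Int.natAbs_natCast, Nat.Prime.coprime_iff_not_dvd hq.2.2]
  intro h3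
  exact h2 (Int.natCast_dvd.2 h3)

theorem top_primes {ρ : ℝ} (hρ0 : 0 < ρ) (hρ1 : ρ ≤ 1 / 8) :
    ∀ᶠ x : ℕ in atTop, ∑ p ∈ (pw 0 x).filter (fun p : ℕ => 1 - ρ < Real.log p / Real.log x),
      1 / (p : ℝ) ≤ 4 * ρ := by
  have tL : Tendsto (fun x : ℕ => Real.log (x : ℝ)) atTop atTop :=
    Real.tendsto_log_atTop.comp tendsto_natCast_atTop_atTop
  filter_upwards [tL.eventually_ge_atTop (1000 / ρ), eventually_ge_atTop 3] with x h1 hx3
  obtain ⟨L, hL⟩ : ∃ L, L = Real.log (x : ℝ) := ⟨_, rfl⟩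
  rw [← hL] at h1 ⊢
  rw [div_le_iff₀ hρ0] at h1
  have hL0 : 0 < L := by
    by_contra h2
    have := mul_nonpos_of_nonpos_of_nonneg (not_lt.1 h2) hρ0.le
    linarith
  have hL8 : 8000 ≤ L := by nlinarith
  obtain ⟨V, hV⟩ : ∃ V : ℕ, V = ⌊Real.exp ((1 - ρ) * L)⌋₊ := ⟨_, rfl⟩
  have hf := floor_bounds (t := (1 - ρ) * L) (by nlinarith)
  rw [← hV] at hf
  obtain ⟨f1, f2, f3, f4, f5⟩ := hf
  have hx1 : (3 : ℝ) ≤ x := by exact_mod_cast hx3
  have hxL : (x : ℝ) = Real.exp L := by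
    rw [hL, Real.exp_log (by linarith)]
  have hVx : V ≤ x := by
    have h2 : (V : ℝ) ≤ x := by
      rw [hxL]
      refine f1.trans (Real.exp_le_exp.2 ?_)
      nlinarith
    exact_mod_cast h2
  have hsub : (pw 0 x).filter (fun p : ℕ => 1 - ρ < Real.log p / L) ⊆ pw V x := by
    intro p hp
    rw [mem_filter, mem_pw] at hp
    obtain ⟨⟨hp1, hp2, hp3⟩, hp4⟩ := hp
    rw [mem_pw]
    refine ⟨hp1, ?_, hp3⟩
    rw [hV, Nat.floor_lt (Real.exp_pos _).le]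
    rw [lt_div_iff₀ hL0] at hp4
    have hp0 : (0 : ℝ) < p := by exact_mod_cast hp1.pos
    calc Real.exp ((1 - ρ) * L) < Real.exp (Real.log p) := Real.exp_lt_exp.2 hp4
      _ = p := Real.exp_log hp0
  refine (sum_le_sum_of_subset_of_nonneg hsub fun p _ _ => by positivity).trans ?_
  rw [sum_pw hVx]
  have h2 := (window (v := V) (x := x) f5 hVx).1
  rw [← hL] at h2
  have hlV : (1 - ρ) * L - 1 ≤ Real.log V := f3
  have hlV0 : 0 < Real.log V := by nlinarith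
  have hlV1 : L / 2 ≤ Real.log V := by nlinarith
  have h3 : Real.log L - Real.log (Real.log V) ≤ 2 * ρ := by
    rw [← Real.log_div hL0.ne' hlV0.ne']
    have h4 := Real.log_le_sub_one_of_pos (show 0 < L / Real.log V by positivity)
    refine h4.trans ?_
    rw [sub_le_iff_le_add, div_le_iff₀ hlV0]
    have h5 : L ≤ (2 * ρ + 1) * ((1 - ρ) * L - 1) := by nlinarith
    refine h5.trans ?_
    exact mul_le_mul_of_nonneg_left hlV (by linarith)
  have h4 : 12 / Real.log V ≤ 2 * ρ := by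
    rw [div_le_iff₀ hlV0]
    nlinarith
  linarith

/-- the constant -/
noncomputable def Kr (α : ℝ) : ℝ := 9792 / ((Lf (4 / α) - Lf (3 / α)) ^ 2 * α ^ 4)

theorem robust_half {α σ : ℝ} (hα : 0 < α) (hα1 : α ≤ 1 / 2) (hσ : 0 < σ) (hσ1 : σ ≤ 1) :
    ∃ x₀ : ℝ, ∀ (x y : ℕ) (m : ℤ) (E : Finset ℕ), x₀ ≤ x → (x : ℝ) ^ (2 - σ / Kr α) ≤ y →
      (∀ p ∈ E, p.Prime ∧ (x : ℝ) ^ α < p ∧ p ≤ x ∧
        ∀ n : ℤ, m < n → n ≤ m + y → ¬ IsCoprime n ((primorial x / p : ℕ) : ℤ)) →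
      ∑ p ∈ E, 1 / (p : ℝ) < σ := by
  obtain ⟨ρ, hρ⟩ : ∃ ρ, ρ = σ / 8 := ⟨_, rfl⟩
  have hρ0 : 0 < ρ := by rw [hρ]; positivity
  have hρ1 : ρ ≤ 1 / 8 := by rw [hρ]; linarith
  obtain ⟨γ, hγ⟩ : ∃ γ : ℝ, γ = Lf (4 / α) - Lf (3 / α) := ⟨_, rfl⟩
  have hγ0 : 0 < γ := by
    have h1 := Lf_strict (s := 3 / α) (s' := 4 / α) (by rw [le_div_iff₀ hα]; linarith)
      (div_lt_div_of_pos_right (by norm_num) hα)
    rw [hγ]
    linarith
  have hγ1 : γ ≤ 1 := by
    have h1 : Lf (4 / α) ≤ LF (4 / α) := (Lf_lt (by positivity)).le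
    have h2 : LF (4 / α) ≤ 1 := LF_le_one (by rw [le_div_iff₀ hα]; linarith)
    have h3 : 0 ≤ Lf (3 / α) := Lf_nonneg (by positivity)
    rw [hγ]
    linarith
  obtain ⟨K, hK⟩ : ∃ K : ℝ, K = 2 / α ^ 2 / ρ + 1 := ⟨_, rfl⟩
  have hα2 : α ^ 2 ≤ 1 / 4 := by nlinarith
  have hK0 : 1 ≤ K := by
    have : 0 ≤ 2 / α ^ 2 / ρ := by positivity
    linarith
  have hK2 : K * (α ^ 2 * σ) ≤ 17 := by
    have e1 : K * (α ^ 2 * σ) = 16 + α ^ 2 * σ := by
      rw [hK, hρ]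
      field_simp
      ring
    rw [e1]
    nlinarith
  obtain ⟨τ, hτ⟩ : ∃ τ : ℝ, τ = γ * α ^ 2 * σ / 204 := ⟨_, rfl⟩
  have hτ0 : 0 < τ := by
    rw [hτ]
    positivity
  have hτρ : τ ≤ ρ := by
    have h1 : γ * α ^ 2 * σ ≤ 1 * (1 / 4) * σ := by
      apply mul_le_mul_of_nonneg_right _ hσ.le
      exact mul_le_mul hγ1 hα2 (by positivity) (by norm_num)
    rw [hτ, hρ]
    linarith
  have hτK : 12 * K * τ ≤ γ := by
    have h1 : 12 * K * τ = γ * (K * (α ^ 2 * σ)) / 17 := by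
      rw [hτ]
      ring
    rw [h1, div_le_iff₀ (by norm_num)]
    exact mul_le_mul_of_nonneg_left hK2 hγ0.le
  obtain ⟨β, δ, R0, N, hev⟩ := exists_par2 hα hα1 hτ0
  -- the exponent
  have hKr : σ / Kr α ≤ η2 α τ / 2 := by
    unfold Kr η2
    rw [← hγ]
    have e1 : σ / (9792 / (γ ^ 2 * α ^ 4)) = γ * τ * α ^ 2 / 24 / 2 := by
      rw [hτ]
      field_simp
      norm_num
    rw [e1]
    apply div_le_div_of_nonneg_right _ (by norm_num)
    apply le_min _ le_rfl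
    have h1 : γ * τ * α ^ 2 ≤ 1 * 1 * 1 := by
      apply mul_le_mul _ (by linarith) (by positivity) (by norm_num)
      exact mul_le_mul hγ1 (by linarith) hτ0.le (by norm_num)
    linarith
  have tL : Tendsto (fun x : ℕ => Real.log (x : ℝ)) atTop atTop :=
    Real.tendsto_log_atTop.comp tendsto_natCast_atTop_atTop
  have tE : Tendsto (fun x : ℕ => Real.exp (α * Real.log (x : ℝ))) atTop atTop :=
    Real.tendsto_exp_atTop.comp (tL.const_mul_atTop hα)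
  obtain ⟨X, hX⟩ := eventually_atTop.1 (((hev.and (top_primes hρ0 hρ1)).and
    (tE.eventually_ge_atTop (1 / τ))).and (eventually_ge_atTop 3))
  refine ⟨X, ?_⟩
  intro x y m E hx hy hE
  obtain ⟨⟨⟨hreg, htop⟩, hxτ⟩, hx3⟩ := hX x (by exact_mod_cast hx)
  have hx0 : (3 : ℝ) ≤ x := by exact_mod_cast hx3
  have hxp : (0 : ℝ) < x := by linarith
  have hpow : ∀ a : ℝ, (x : ℝ) ^ a = Real.exp (a * Real.log x) := by
    intro a
    rw [Real.rpow_def_of_pos hxp, mul_comm]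
  have hL0 : 0 < Real.log (x : ℝ) := Real.log_pos (by linarith)
  by_contra hcon
  have hσE := not_lt.1 hcon
  obtain ⟨E1, hE1⟩ : ∃ E1 : Finset ℕ,
    E1 = E.filter fun p : ℕ => Real.log p / Real.log x ≤ 1 - ρ := ⟨_, rfl⟩
  have hE1E : E1 ⊆ E := by
    rw [hE1]
    exact filter_subset _ _
  have hs1 : ∑ p ∈ E, 1 / (p : ℝ) ≤ ∑ p ∈ E1, 1 / (p : ℝ) + 4 * ρ := by
    have h1 := sum_filter_add_sum_filter_not E
      (fun p : ℕ => Real.log p / Real.log x ≤ 1 - ρ) (fun p => 1 / (p : ℝ))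
    rw [← hE1] at h1
    rw [← h1]
    have h2 : ∑ p ∈ E.filter (fun p : ℕ => ¬ Real.log p / Real.log x ≤ 1 - ρ), 1 / (p : ℝ) ≤
        ∑ p ∈ (pw 0 x).filter (fun p : ℕ => 1 - ρ < Real.log p / Real.log x), 1 / (p : ℝ) := by
      apply sum_le_sum_of_subset_of_nonneg
      · intro p hp
        rw [mem_filter] at hp
        obtain ⟨h3, h4, h5, h6⟩ := hE p hp.1
        rw [mem_filter, mem_pw]
        exact ⟨⟨h3, h3.pos, h5⟩, not_le.1 hp.2⟩
      · intro p _ _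
        positivity
    linarith
  have hs2 : τ ≤ ∑ p ∈ E1, 1 / (p : ℝ) := by
    have : 8 * ρ = σ := by rw [hρ]; ring
    linarith
  have hterm : ∀ p ∈ E1, 1 / (p : ℝ) ≤ τ := by
    intro p hp
    obtain ⟨h3, h4, h5, h6⟩ := hE p (hE1E hp)
    rw [hpow] at h4
    have h7 : 1 / τ ≤ (p : ℝ) := hxτ.trans h4.le
    have h8 : (0 : ℝ) < p := by exact_mod_cast h3.pos
    rw [div_le_iff₀ hτ0] at h7
    rw [div_le_iff₀ h8]
    linarith
  obtain ⟨Ra, hRa, hRa1, hRa2⟩ := exists_subset_sum hτ0 E1 hterm hs2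
  have hLq := hreg y Ra (fun p hp => by
    obtain ⟨h3, h4, h5, h6⟩ := hE p (hE1E (hRa hp))
    rw [hpow] at h4
    exact ⟨h3, h4, h5⟩) hRa1 (by
    rw [← hpow]
    refine le_trans ?_ hy
    exact Real.rpow_le_rpow_of_exponent_le (by linarith) (by linarith))
  rw [← hγ] at hLq
  have hγτ : γ * τ ≤ 1 := by
    have : γ * τ ≤ 1 * 1 := mul_le_mul hγ1 (by linarith) hτ0.le (by norm_num)
    linarith
  obtain ⟨n, hn, h1, h2⟩ := hLq.one_class (ρ := ρ) hρ0 (by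
      have h3 := hLq.hη2
      have h4 : γ * τ * α ^ 2 ≤ 1 * τ * 1 := by
        apply mul_le_mul (mul_le_mul_of_nonneg_right hγ1 hτ0.le) _ (by positivity) (by positivity)
        nlinarith
      linarith)
    (by
      intro p hp
      have h3 := hRa hp
      rw [hE1, mem_filter] at h3
      exact h3.2)
    (by
      have h3 : (∑ p ∈ Ra, 1 / (p : ℝ)) * (2 / α ^ 2 / ρ + γ * τ / 3) ≤ 2 * τ * K := by
        apply mul_le_mul hRa2 _ _ (by positivity)
        · rw [hK]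
          linarith
        · positivity
      linarith)
    (fun _ => -m)
  rw [mem_Icc] at hn
  have hhit : ∀ q : ℕ, hit (fun _ => -m) q n ↔ (q : ℤ) ∣ m + n := by
    intro q
    unfold hit
    have : (n : ℤ) - -m = m + n := by ring
    rw [this]
  have key : ∃ p ∈ Ra, ∀ q : ℕ, q.Prime → q ≤ x → q ≠ p → ¬ (q : ℤ) ∣ m + n := by
    by_cases hex : ∃ p ∈ Ra, (p : ℤ) ∣ m + n
    · obtain ⟨p, hp, hpn⟩ := hex
      refine ⟨p, hp, fun q hq hqx hqp hqn => ?_⟩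
      by_cases hqR : q ∈ Ra
      · exact hqp (h2 q hqR p hp ((hhit q).2 hqn) ((hhit p).2 hpn))
      · exact h1 q hq hqx hqR ((hhit q).2 hqn)
    · push Not at hex
      have hne : Ra.Nonempty := by
        by_contra hemp
        rw [not_nonempty_iff_eq_empty] at hemp
        rw [hemp, sum_empty] at hRa1
        linarith
      obtain ⟨p, hp⟩ := hne
      refine ⟨p, hp, fun q hq hqx _ hqn => ?_⟩
      by_cases hqR : q ∈ Ra
      · exact hex q hqR hqn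
      · exact h1 q hq hqx hqR ((hhit q).2 hqn)
  obtain ⟨p, hp, hpq⟩ := key
  obtain ⟨h3, h4, h5, h6⟩ := hE p (hE1E (hRa hp))
  exact h6 (m + n) (by omega) (by omega) (coprime_primorial_div h3 h5 hpq)

/-- the sum over all primes in `(x ^ α, x]` is bounded -/
theorem all_primes {α : ℝ} (hα : 0 < α) (hα1 : α ≤ 1 / 2) : ∀ᶠ x : ℕ in atTop,
    ∀ E : Finset ℕ, (∀ p ∈ E, p.Prime ∧ (x : ℝ) ^ α < p ∧ p ≤ x) →
      ∑ p ∈ E, 1 / (p : ℝ) ≤ 2 / α := by
  have tL : Tendsto (fun x : ℕ => Real.log (x : ℝ)) atTop atTop :=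
    Real.tendsto_log_atTop.comp tendsto_natCast_atTop_atTop
  filter_upwards [tL.eventually_ge_atTop (100 / α), eventually_ge_atTop 3] with x h1 hx3
  intro E hE
  obtain ⟨L, hL⟩ : ∃ L, L = Real.log (x : ℝ) := ⟨_, rfl⟩
  rw [← hL] at h1
  rw [div_le_iff₀ hα] at h1
  have hL0 : 0 < L := by
    by_contra h2
    have := mul_nonpos_of_nonpos_of_nonneg (not_lt.1 h2) hα.le
    linarith
  have hx1 : (3 : ℝ) ≤ x := by exact_mod_cast hx3
  have hxL : (x : ℝ) = Real.exp L := by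
    rw [hL, Real.exp_log (by linarith)]
  have hpow : (x : ℝ) ^ α = Real.exp (α * L) := by
    rw [Real.rpow_def_of_pos (by linarith), mul_comm, hL]
  obtain ⟨V, hV⟩ : ∃ V : ℕ, V = ⌊Real.exp (α * L)⌋₊ := ⟨_, rfl⟩
  have hf := floor_bounds (t := α * L) (by linarith)
  rw [← hV] at hf
  obtain ⟨f1, f2, f3, f4, f5⟩ := hf
  have hVx : V ≤ x := by
    have h2 : (V : ℝ) ≤ x := by
      rw [hxL]
      refine f1.trans (Real.exp_le_exp.2 ?_)
      nlinarith
    exact_mod_cast h2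
  have hsub : E ⊆ pw V x := by
    intro p hp
    obtain ⟨hp1, hp2, hp3⟩ := hE p hp
    rw [mem_pw]
    refine ⟨hp1, ?_, hp3⟩
    rw [hV, Nat.floor_lt (Real.exp_pos _).le, ← hpow]
    exact hp2
  refine (sum_le_sum_of_subset_of_nonneg hsub fun p _ _ => by positivity).trans ?_
  rw [sum_pw hVx]
  have h2 := (window (v := V) (x := x) f5 hVx).1
  rw [← hL] at h2
  have hlV0 : 0 < Real.log V := by linarith
  have hlV1 : α * L / 2 ≤ Real.log V := by linarith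
  have h3 : Real.log L - Real.log (Real.log V) ≤ 1 / α := by
    rw [← Real.log_div hL0.ne' hlV0.ne']
    have h4 : L / Real.log V ≤ 2 / α := by
      rw [div_le_div_iff₀ hlV0 hα]
      linarith
    have h5 : Real.log (L / Real.log V) ≤ Real.log (2 / α) :=
      Real.log_le_log (by positivity) h4
    have h6 : Real.log (2 / α) = Real.log 2 + Real.log (1 / α) := by
      rw [← Real.log_mul (by norm_num) (by positivity)]
      congr 1
      ring
    have h7 := Real.log_le_sub_one_of_pos (show 0 < 1 / α by positivity)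
    have h8 := Real.log_two_lt_d9
    linarith
  have h4 : 12 / Real.log V ≤ 1 / 4 := by
    rw [div_le_iff₀ hlV0]
    linarith
  have h5 : 2 ≤ 1 / α := by
    rw [le_div_iff₀ hα]
    linarith
  have h6 : 2 / α = 1 / α + 1 / α := by ring
  linarith

/-- **Kanold's bound, up to one prime.** -/
theorem robust {α : ℝ} (hα : 0 < α) :
    ∃ K : ℝ, ∀ C : ℝ, 0 < C → ∃ x₀ : ℝ, ∀ (x y : ℕ) (m : ℤ) (E : Finset ℕ), x₀ ≤ x →
      (x : ℝ) ^ (2 - C) ≤ y →
      (∀ p ∈ E, p.Prime ∧ (x : ℝ) ^ α < p ∧ p ≤ x ∧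
        ∀ n : ℤ, m < n → n ≤ m + y → ¬ IsCoprime n ((primorial x / p : ℕ) : ℤ)) →
      ∑ p ∈ E, 1 / (p : ℝ) ≤ K * C := by
  obtain ⟨α', hα'⟩ : ∃ α' : ℝ, α' = min α (1 / 2) := ⟨_, rfl⟩
  have h0 : 0 < α' := by
    rw [hα']
    exact lt_min hα (by norm_num)
  have h1 : α' ≤ 1 / 2 := by
    rw [hα']
    exact min_le_right _ _
  have h2 : α' ≤ α := by
    rw [hα']
    exact min_le_left _ _
  obtain ⟨k, hk⟩ : ∃ k : ℝ, k = Kr α' := ⟨_, rfl⟩
  have hk0 : 0 < k := by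
    rw [hk]
    unfold Kr
    have h3 := Lf_strict (s := 3 / α') (s' := 4 / α') (by rw [le_div_iff₀ h0]; linarith)
      (div_lt_div_of_pos_right (by norm_num) h0)
    have h4 : 0 < Lf (4 / α') - Lf (3 / α') := by linarith
    positivity
  have hmon : ∀ (x : ℕ), 1 ≤ x → (x : ℝ) ^ α' ≤ (x : ℝ) ^ α := by
    intro x hx
    exact Real.rpow_le_rpow_of_exponent_le (by exact_mod_cast hx) h2
  refine ⟨k * (1 + 2 / α'), ?_⟩
  intro C hC
  have h5 : 0 < 2 / α' := by positivity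
  rcases le_or_gt (k * C) 1 with h6 | h6
  · obtain ⟨X, hX⟩ := robust_half h0 h1 (show 0 < k * C by positivity) h6
    refine ⟨max X 1, ?_⟩
    intro x y m E hx hy hE
    have hx0 := (le_max_left _ _).trans hx
    have hx1 : 1 ≤ x := by
      have := (le_max_right _ _).trans hx
      exact_mod_cast this
    have h7 := hX x y m E hx0 (by
      have e1 : k * C / Kr α' = C := by
        rw [← hk]
        field_simp
      rw [e1]
      exact hy) (fun p hp => by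
      obtain ⟨g1, g2, g3⟩ := hE p hp
      exact ⟨g1, (hmon x hx1).trans_lt g2, g3⟩)
    have h8 : k * C * 1 ≤ k * C * (1 + 2 / α') :=
      mul_le_mul_of_nonneg_left (by linarith) (by positivity)
    linarith
  · obtain ⟨X, hX⟩ := eventually_atTop.1 ((all_primes h0 h1).and (eventually_ge_atTop 1))
    refine ⟨X, ?_⟩
    intro x y m E hx hy hE
    obtain ⟨h7, hx1⟩ := hX x (by exact_mod_cast hx)
    have h8 := h7 E (fun p hp => by
      obtain ⟨g1, g2, g3, g4⟩ := hE p hp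
      exact ⟨g1, (hmon x hx1).trans_lt g2, g3⟩)
    have h9 : 1 * (1 + 2 / α') ≤ k * C * (1 + 2 / α') :=
      mul_le_mul_of_nonneg_right h6.le (by linarith)
    linarith

end Pool.LinSieve
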